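import Mathlib

set_option autoImplicit false

namespace Pool.Agent.H891Z

open Finset

theorem rtg_rank {V : Type} (A : V → V → Prop) (ρ : V → ℕ) (h : ∀ x y, A x y → ρ x < ρ y)
    {x y : V} (hxy : Relation.ReflTransGen A x y) : x = y ∨ ρ x < ρ y := by
  induction hxy with
  | refl => exact Or.inl rfl
  | tail _ hbc ih =>
    right
    rcases ih with rfl | ih
    · exact h _ _ hbc
    · exact ih.trans (h _ _ hbc)

/-- The partial order generated by a ranked relation. -/
@[reducible] def closureOrder {V : Type} (A : V → V → Prop) (ρ : V → ℕ)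
    (h : ∀ x y, A x y → ρ x < ρ y) : PartialOrder V where
  le := Relation.ReflTransGen A
  le_refl := fun _ => Relation.ReflTransGen.refl
  le_trans := fun _ _ _ => Relation.ReflTransGen.trans
  le_antisymm := fun x y h1 h2 => by
    rcases rtg_rank A ρ h h1 with h3 | h3
    · exact h3
    · rcases rtg_rank A ρ h h2 with h4 | h4
      · exact h4.symm
      · omega

theorem closure_cov {V : Type} (A : V → V → Prop) (ρ : V → ℕ) (h : ∀ x y, A x y → ρ x < ρ y)
    {x y : V} (hxy : @CovBy V (closureOrder A ρ h).toLT x y) : A x y := by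
  letI := closureOrder A ρ h
  have h1 : Relation.ReflTransGen A x y := hxy.le
  rcases h1.cases_head with h2 | ⟨z, hz, hzy⟩
  · exact absurd h2 hxy.ne
  · have hxz : x < z := lt_of_le_of_ne (Relation.ReflTransGen.single hz)
      (fun e => by have := h _ _ hz; rw [e] at this; exact lt_irrefl _ this)
    have hzy' : z ≤ y := hzy
    rcases hzy'.eq_or_lt with h3 | h3
    · exact h3 ▸ hz
    · exact absurd h3 (hxy.2 hxz)

theorem closure_chain {V : Type} (A : V → V → Prop) (ρ : V → ℕ) (h : ∀ x y, A x y → ρ x < ρ y)
    (n : ℕ) (hn : ∀ x, ρ x < n) (s : Finset V)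
    (hs : IsChain (Relation.ReflTransGen A) (s : Set V)) : s.card ≤ n := by
  rw [← card_range n]
  refine card_le_card_of_injOn ρ (fun x _ => by simpa using hn x) ?_
  intro x hx y hy hxy
  by_contra hne
  rcases hs hx hy hne with h1 | h1
  · rcases rtg_rank A ρ h h1 with h2 | h2
    · exact hne h2
    · omega
  · rcases rtg_rank A ρ h h1 with h2 | h2
    · exact hne h2.symm
    · omega

/-- A random cut keeps a quarter of the ordered pairs. -/
theorem exists_cut {W : Type} [Fintype W] [DecidableEq W] (E : Finset (W × W))
    (hE : ∀ p ∈ E, p.1 ≠ p.2) :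
    ∃ s : W → Bool, E.card ≤ 4 * (E.filter fun p => s p.1 = true ∧ s p.2 = false).card := by
  by_contra hcon
  push Not at hcon
  have h1 : ∀ p ∈ E, Fintype.card (W → Bool) ≤
      4 * (univ.filter fun s : W → Bool => s p.1 = true ∧ s p.2 = false).card := by
    intro p hp
    have : (univ : Finset (W → Bool)).card ≤
        ((univ.filter fun s : W → Bool => s p.1 = true ∧ s p.2 = false) ×ˢ
          (univ : Finset (Bool × Bool))).card := by
      refine card_le_card_of_injOn
        (fun s => (Function.update (Function.update s p.1 true) p.2 false, (s p.1, s p.2))) ?_ ?_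
      · intro s _
        simp [Function.update_of_ne (hE p hp)]
      · intro s _ t _ hst
        simp only [Prod.mk.injEq] at hst
        obtain ⟨h1, h2, h3⟩ := hst
        funext w
        by_cases hw2 : w = p.2
        · rw [hw2, h3]
        · by_cases hw1 : w = p.1
          · rw [hw1, h2]
          · have := congrFun h1 w
            simpa [Function.update_of_ne hw1, Function.update_of_ne hw2] using this
    rw [card_product, card_univ, card_univ] at this
    simpa [mul_comm] using this
  have h2 : ∑ s : W → Bool, (E.filter fun p => s p.1 = true ∧ s p.2 = false).card =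
      ∑ p ∈ E, (univ.filter fun s : W → Bool => s p.1 = true ∧ s p.2 = false).card := by
    simp only [card_filter]
    exact sum_comm
  have h3 : ∑ s : W → Bool, 4 * (E.filter fun p => s p.1 = true ∧ s p.2 = false).card <
      ∑ _s : W → Bool, E.card :=
    sum_lt_sum_of_nonempty univ_nonempty fun s _ => hcon s
  have h4 : ∑ _p ∈ E, Fintype.card (W → Bool) ≤
      ∑ p ∈ E, 4 * (univ.filter fun s : W → Bool => s p.1 = true ∧ s p.2 = false).card :=
    sum_le_sum h1
  rw [← mul_sum, h2, mul_sum] at h3
  simp only [sum_const, card_univ, smul_eq_mul] at h3 h4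
  rw [mul_comm] at h4
  omega

theorem card_edgeSet_le {W : Type} [Fintype W] [DecidableEq W] (H : SimpleGraph W)
    (E : Finset (W × W)) (hE : ∀ a b, H.Adj a b → (a, b) ∈ E ∨ (b, a) ∈ E) :
    Nat.card H.edgeSet ≤ E.card := by
  rw [Nat.card_coe_set_eq]
  have : H.edgeSet ⊆ ((E.image fun p => s(p.1, p.2) : Finset _) : Set _) := by
    intro e he
    induction e using Sym2.ind with
    | _ a b =>
      rw [coe_image]
      rcases hE a b he with h | h
      · exact ⟨_, h, rfl⟩
      · exact ⟨_, h, Sym2.eq_swap⟩
  calc H.edgeSet.ncard ≤ _ := Set.ncard_le_ncard this (Finset.finite_toSet _)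
    _ = _ := Set.ncard_coe_finset _
    _ ≤ _ := card_image_le

end Pool.Agent.H891Z
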