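import Pool.Agent.H891Z.Count
import Pool.Agent.H891Z.Closure

set_option autoImplicit false

namespace Pool.Agent.H891Z

open Finset

section
variable {V W : Type} (G : SimpleGraph V) (B : W → Set V) (c : W → V)

/-- Distance to the centre inside a branch set. -/
noncomputable def bdist (w : W) (u : V) : ℕ :=
  sInf {n | ∃ p : G.Walk u (c w), p.length ≤ n ∧ ∀ x ∈ p.support, x ∈ B w}

variable {G B c}

theorem bdist_le {r : ℕ}
    (hc : ∀ w, ∀ u ∈ B w, ∃ p : G.Walk (c w) u, p.length ≤ r ∧ ∀ x ∈ p.support, x ∈ B w)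
    {w : W} {u : V} (hu : u ∈ B w) : bdist G B c w u ≤ r := by
  obtain ⟨p, hp, hs⟩ := hc w u hu
  refine Nat.sInf_le ⟨p.reverse, by simpa using hp, fun x hx => hs x (by simpa using hx)⟩

theorem bdist_parent {r : ℕ}
    (hc : ∀ w, ∀ u ∈ B w, ∃ p : G.Walk (c w) u, p.length ≤ r ∧ ∀ x ∈ p.support, x ∈ B w)
    {w : W} {u : V} (hu : u ∈ B w) (hne : u ≠ c w) :
    ∃ u' ∈ B w, G.Adj u u' ∧ bdist G B c w u' < bdist G B c w u := by
  obtain ⟨p, hp, hs⟩ := hc w u hu
  have hne' : {n | ∃ p : G.Walk u (c w), p.length ≤ n ∧ ∀ x ∈ p.support, x ∈ B w}.Nonempty :=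
    ⟨r, p.reverse, by simpa using hp, fun x hx => hs x (by simpa using hx)⟩
  obtain ⟨q, hq, hqs⟩ := Nat.sInf_mem hne'
  have key : ∀ (v : V) (q : G.Walk u v), v = c w → q.length ≤ bdist G B c w u →
      (∀ x ∈ q.support, x ∈ B w) →
      ∃ u' ∈ B w, G.Adj u u' ∧ bdist G B c w u' < bdist G B c w u := by
    intro v q hv hq hqs
    cases q with
    | nil => exact absurd hv hne
    | @cons _ u' _ h q' =>
      subst hv
      refine ⟨u', hqs u' (by simp), h, ?_⟩
      have : bdist G B c w u' ≤ q'.length :=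
        Nat.sInf_le ⟨q', le_rfl, fun x hx => hqs x (by simp [hx])⟩
      simp only [SimpleGraph.Walk.length_cons] at hq
      omega
  exact key _ q rfl hq hqs

end

theorem bdd_expansion :
  ∀ C : ∀ V : Type, SimpleGraph V → Prop,
    (∀ (V W : Type) (G : SimpleGraph V) (H : SimpleGraph W) (f : H →g G),
        Function.Injective f → C V G → C W H) →
    (∀ h : ℕ, 1 ≤ h → ∃ d : ℕ, ∀ (P : Type) [Fintype P] [PartialOrder P],
        (∀ s : Finset P, IsChain (· ≤ ·) (s : Set P) → s.card ≤ h) →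
        C P (SimpleGraph.fromRel (fun x y : P => x ⋖ y)) →
        ∃ f : Fin d → P → ℕ, (∀ i, Function.Injective (f i)) ∧
          ∀ x y : P, x ≤ y ↔ ∀ i, f i x ≤ f i y) →
    ∀ r : ℕ, ∃ c : ℕ, ∀ (V W : Type) [Fintype V] [Fintype W]
        (G : SimpleGraph V) (H : SimpleGraph W),
      C V G →
      (∃ B : W → Set V, (∀ w w', w ≠ w' → Disjoint (B w) (B w')) ∧
        (∀ w, ∃ v ∈ B w, ∀ u ∈ B w, ∃ p : G.Walk v u,
            p.length ≤ r ∧ ∀ x ∈ p.support, x ∈ B w) ∧
        (∀ w w', H.Adj w w' → ∃ u ∈ B w, ∃ u' ∈ B w', G.Adj u u')) →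
      Nat.card H.edgeSet ≤ c * Fintype.card W := by
  classical
  intro C hmono hdim r
  obtain ⟨d, hd⟩ := hdim (2 * r + 2) (by omega)
  obtain ⟨D, hD⟩ := count_bound (Fin d)
  refine ⟨8 * D, fun V W _ _ G H hG ⟨B, hdisj, hcen, hadj⟩ => ?_⟩
  choose c hcB hc using hcen
  have huniq : ∀ {w w' : W} {u : V}, u ∈ B w → u ∈ B w' → w = w' := by
    intro w w' u h1 h2
    by_contra hne
    exact Set.disjoint_left.1 (hdisj w w' hne) h1 h2
  let E : Finset (W × W) := univ.filter fun p => H.Adj p.1 p.2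
  obtain ⟨s, hs⟩ := exists_cut E (fun p hp => (mem_filter.1 hp).2.ne)
  have h1 : Nat.card H.edgeSet ≤ E.card :=
    card_edgeSet_le H E fun a b hab => Or.inl (mem_filter.2 ⟨mem_univ _, hab⟩)
  set E' := E.filter fun p => s p.1 = true ∧ s p.2 = false with hE'
  suffices h : E'.card ≤ D * (Fintype.card W + Fintype.card W) by
    calc _ ≤ E.card := h1
      _ ≤ 4 * E'.card := hs
      _ ≤ 4 * (D * (Fintype.card W + Fintype.card W)) := by gcongr
      _ = _ := by ring
  refine hD W W E' fun F hF => ?_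
  let δ := bdist G B c
  let val : W → V → ℕ := fun w u => if s w = true then δ w u else 2 * r + 1 - δ w u
  let ρ : V → ℕ := fun u => ∑ w, if u ∈ B w then val w u else 0
  have hρ : ∀ {w : W} {u : V}, u ∈ B w → ρ u = val w u := by
    intro w u hu
    simp only [ρ]
    rw [sum_eq_single w]
    · simp [hu]
    · intro w' _ hw'
      rw [if_neg fun h => hw' (huniq h hu)]
    · simp
  have hδ : ∀ {w : W} {u : V}, u ∈ B w → δ w u ≤ r := fun hu => bdist_le hc hu
  have hρlt : ∀ u, ρ u < 2 * r + 2 := by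
    intro u
    by_cases h : ∃ w, u ∈ B w
    · obtain ⟨w, hw⟩ := h
      rw [hρ hw]
      have := hδ hw
      simp only [val]
      split_ifs <;> omega
    · push Not at h
      simp [ρ, h]
  have hFs : ∀ a b, (a, b) ∈ F → H.Adj a b ∧ s a = true ∧ s b = false := by
    intro a b hab
    have := mem_filter.1 (hF hab)
    exact ⟨(mem_filter.1 this.1).2, this.2⟩
  let A : V → V → Prop := fun u u' => G.Adj u u' ∧
    ((∃ w, s w = true ∧ u ∈ B w ∧ u' ∈ B w ∧ δ w u < δ w u') ∨
     (∃ w, s w = false ∧ u ∈ B w ∧ u' ∈ B w ∧ δ w u' < δ w u) ∨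
     (∃ a b, (a, b) ∈ F ∧ u ∈ B a ∧ u' ∈ B b))
  have hA : ∀ x y, A x y → ρ x < ρ y := by
    rintro x y ⟨-, ⟨w, hw, hx, hy, hlt⟩ | ⟨w, hw, hx, hy, hlt⟩ | ⟨a, b, hab, hx, hy⟩⟩
    · rw [hρ hx, hρ hy]
      simpa [val, hw] using hlt
    · rw [hρ hx, hρ hy]
      have := hδ hx
      simp only [val, hw]
      simp
      omega
    · rw [hρ hx, hρ hy]
      have h2 := hδ hx
      have h3 := hδ hy
      obtain ⟨-, ha, hb⟩ := hFs a b hab
      simp only [val, ha, hb]
      simp
      omega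
  have hcov : C V (SimpleGraph.fromRel (fun x y : V => @CovBy V (closureOrder A ρ hA).toLT x y)) := by
    refine hmono V V G _ ⟨id, ?_⟩ Function.injective_id hG
    intro x y hxy
    rw [SimpleGraph.fromRel_adj] at hxy
    rcases hxy.2 with h | h
    · exact (closure_cov A ρ hA h).1
    · exact (closure_cov A ρ hA h).1.symm
  obtain ⟨f, -, hf⟩ := @hd V _ (closureOrder A ρ hA)
    (fun t ht => closure_chain A ρ hA _ hρlt t ht) hcov
  refine ⟨fun i a => (f i (c a) : ℝ), fun i b => (f i (c b) : ℝ), ?_⟩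
  rintro ⟨a, b⟩ hab
  have hab' := mem_filter.1 hab
  have hsa : s a = true := hab'.2.1
  have hsb : s b = false := hab'.2.2
  have h2 : (∀ i, (f i (c a) : ℝ) ≤ (f i (c b) : ℝ)) ↔ Relation.ReflTransGen A (c a) (c b) := by
    rw [show Relation.ReflTransGen A (c a) (c b) ↔ _ from hf (c a) (c b)]
    simp
  rw [h2]
  constructor
  · intro hF'
    have up : ∀ n, ∀ u ∈ B a, δ a u = n → Relation.ReflTransGen A (c a) u := by
      intro n
      induction n using Nat.strong_induction_on with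
      | _ n ih =>
        intro u hu hn
        by_cases hne : u = c a
        · rw [hne]
        · obtain ⟨u', hu', hadj', hlt⟩ := bdist_parent hc hu hne
          exact (ih _ (hn ▸ hlt) u' hu' rfl).tail
            ⟨hadj'.symm, Or.inl ⟨a, hsa, hu', hu, hlt⟩⟩
    have down : ∀ n, ∀ u ∈ B b, δ b u = n → Relation.ReflTransGen A u (c b) := by
      intro n
      induction n using Nat.strong_induction_on with
      | _ n ih =>
        intro u hu hn
        by_cases hne : u = c b
        · rw [hne]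
        · obtain ⟨u', hu', hadj', hlt⟩ := bdist_parent hc hu hne
          exact (ih _ (hn ▸ hlt) u' hu' rfl).head
            ⟨hadj', Or.inr (Or.inl ⟨b, hsb, hu, hu', hlt⟩)⟩
    obtain ⟨u, hu, u', hu', huu⟩ := hadj a b (hFs a b hF').1
    exact ((up _ u hu rfl).tail ⟨huu, Or.inr (Or.inr ⟨a, b, hF', hu, hu'⟩)⟩).trans
      (down _ u' hu' rfl)
  · intro hr
    have inv : ∀ y, Relation.ReflTransGen A (c a) y →
        y ∈ B a ∨ ∃ b', (a, b') ∈ F ∧ y ∈ B b' := by
      intro y hy
      induction hy with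
      | refl => exact Or.inl (hcB a)
      | @tail y z _ hyz ih =>
        obtain ⟨-, ⟨w, hw, hy, hz, -⟩ | ⟨w, hw, hy, hz, -⟩ | ⟨a', b', hab', hy, hz⟩⟩ := hyz
        · rcases ih with ih | ⟨b', hb', ih⟩
          · exact Or.inl (huniq hy ih ▸ hz)
          · exact Or.inr ⟨b', hb', huniq hy ih ▸ hz⟩
        · rcases ih with ih | ⟨b', hb', ih⟩
          · exact Or.inl (huniq hy ih ▸ hz)
          · exact Or.inr ⟨b', hb', huniq hy ih ▸ hz⟩
        · rcases ih with ih | ⟨b'', hb'', ih⟩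
          · exact Or.inr ⟨b', huniq hy ih ▸ hab', hz⟩
          · have e := huniq hy ih
            have h3 := (hFs _ _ hab').2.1
            have h4 := (hFs _ _ hb'').2.2
            rw [e, h4] at h3
            exact absurd h3 (by simp)
    rcases inv _ hr with h | ⟨b', hb', h⟩
    · have e := huniq h (hcB b)
      rw [e, hsb] at hsa
      exact absurd hsa (by simp)
    · exact huniq h (hcB b) ▸ hb'

end Pool.Agent.H891Z
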