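import Pool.Agent.Helper926.RK.RELib

set_option autoImplicit false

namespace Pool.Agent.H891Z.CN

open Pool.Agent.Helper926

theorem inv_rec_sel {β : Type} [Primcodable β] [Inhabited β] {r : ℕ → List β → β → Prop}
    (hr : REPred fun p : (ℕ × List β) × β => r p.1.1 p.1.2 p.2)
    (h : ∀ (n : ℕ) (f : ℕ → β), (∀ m < n, r m ((List.range m).map f) (f m)) →
      ∃ c, r n ((List.range n).map f) c) :
    ∃ f : ℕ → β, Computable f ∧ ∀ n, r n ((List.range n).map f) (f n) := by
  classical
  obtain ⟨g, hg, h1, h2⟩ := RE.uniformize (r := fun (a : ℕ × List β) c => r a.1 a.2 c) hr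
  let g' : ℕ × List β → β := fun a => if h : (g a).Dom then (g a).get h else default
  let hist : ℕ → List β := fun n => Nat.rec [] (fun m l => l ++ [g' (m, l)]) n
  have hist_succ : ∀ n, hist (n + 1) = hist n ++ [g' (n, hist n)] := fun n => rfl
  let f : ℕ → β := fun n => g' (n, hist n)
  have key : ∀ n, hist n = (List.range n).map f := by
    intro n
    induction n with
    | zero => rfl
    | succ n ih => rw [hist_succ, List.range_succ, List.map_append, ← ih]; rfl
  have main : ∀ n, f n ∈ g (n, hist n) := by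
    intro n
    induction n using Nat.strong_induction_on with
    | _ n ih =>
      have hd : (g (n, hist n)).Dom := by
        rw [h1, key]
        exact h n f fun m hm => by
          have := h2 _ _ (ih m hm)
          rwa [key] at this
      simp only [f, g', hd, dif_pos]
      exact Part.get_mem _
  have hp : Partrec fun n : ℕ => (Nat.rec (Part.some []) (fun y IH => IH.bind fun i =>
      (g (y, i)).map fun c => i ++ [c]) n : Part (List β)) := by
    refine Partrec.nat_rec (f := fun n : ℕ => n) (g := fun _ => Part.some ([] : List β))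
      (h := fun (_ : ℕ) (y : ℕ × List β) => (g (y.1, y.2)).map fun c => y.2 ++ [c])
      Computable.id (Computable.const []) ?_
    unfold Partrec₂
    refine Partrec.map (hg.comp Computable.snd) ?_
    unfold Computable₂
    fun_prop
  have hh : Computable hist := by
    refine hp.of_eq_tot fun n => ?_
    induction n with
    | zero => exact Part.mem_some _
    | succ n ih => exact Part.mem_bind ih (Part.mem_map _ (main n))
  refine ⟨f, (hg.comp (Computable.id.pair hh)).of_eq_tot main, fun n => ?_⟩
  have := h2 _ _ (main n)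
  rwa [key] at this

/-- All lists of bounded length over a list of letters. -/
def allL {α : Type} (A : List α) (L : ℕ) : List (List α) :=
  Nat.rec [[]] (fun _ acc => [] :: acc.flatMap fun l => A.map (· :: l)) L

theorem mem_allL {α : Type} (A : List α) (L : ℕ) (p : List α) :
    p ∈ allL A L ↔ p.length ≤ L ∧ ∀ a ∈ p, a ∈ A := by
  induction L generalizing p with
  | zero =>
    simp only [allL, Nat.rec_zero, List.mem_singleton, Nat.le_zero, List.length_eq_zero_iff]
    exact ⟨fun h => by simp [h], fun h => h.1⟩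
  | succ L ih =>
    have : allL A (L + 1) = [] :: (allL A L).flatMap fun l => A.map (· :: l) := rfl
    rw [this]
    cases p with
    | nil => simp
    | cons a p =>
      simp only [List.mem_cons, reduceCtorEq, List.mem_flatMap, List.mem_map, List.cons.injEq,
        false_or, List.length_cons, Nat.add_le_add_iff_right, forall_eq_or_imp]
      constructor
      · rintro ⟨l, hl, b, hb, rfl, rfl⟩
        exact ⟨((ih _).1 hl).1, hb, ((ih _).1 hl).2⟩
      · rintro ⟨h1, h2, h3⟩
        exact ⟨p, (ih _).2 ⟨h1, h3⟩, a, h2, rfl, rfl⟩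

theorem primrec_allL {α β : Type} [Primcodable α] [Primcodable β] {A : β → List α} {L : β → ℕ}
    (hA : Primrec A) (hL : Primrec L) : Primrec fun b => allL (A b) (L b) := by
  have h1 : Primrec₂ fun (x : (β × ℕ × List (List α)) × List α) (a : α) => a :: x.2 :=
    (Primrec.list_cons.comp Primrec.snd (Primrec.snd.comp Primrec.fst)).to₂
  have h2 : Primrec₂ fun (x : β × ℕ × List (List α)) (l : List α) => (A x.1).map (· :: l) :=
    (Primrec.list_map (hA.comp (Primrec.fst.comp Primrec.fst)) h1).to₂
  have h3 : Primrec₂ fun (b : β) (y : ℕ × List (List α)) =>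
      [] :: y.2.flatMap fun l => (A b).map (· :: l) :=
    (Primrec.list_cons.comp (Primrec.const []) (Primrec.list_flatMap
      (Primrec.snd.comp Primrec.snd) h2)).to₂
  exact Primrec.nat_rec' hL (Primrec.const [[]]) h3

theorem primrec_pow2 : Primrec fun n : ℕ => 2 ^ n :=
  (Primrec.nat_rec₁ (f := fun _ a => a * 2) 1
    (Primrec.nat_mul.comp Primrec.snd (Primrec.const 2)).to₂).of_eq fun n => by
    induction n with
    | zero => rfl
    | succ n ih => simp only [pow_succ, ← ih]

variable {A : Type} [Primcodable A]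

abbrev Wd (A : Type) : Type := List (A × Bool)

theorem primrec_inv : Primrec (FreeGroup.invRev : Wd A → Wd A) :=
  Primrec.list_reverse.comp (Primrec.list_map Primrec.id
    ((Primrec.fst.comp Primrec.snd).pair (Primrec.not.comp (Primrec.snd.comp Primrec.snd))).to₂)

/-- The `j`-th entry of the history. -/
def ent (l : List (Wd A × ℕ)) (j : ℕ) : Wd A × ℕ := l.getD j ([], 0)

def tok (l : List (Wd A × ℕ)) (a : ℕ × Bool) : Wd A :=
  bif a.2 then (ent l a.1).1 else FreeGroup.invRev (ent l a.1).1

def word (l : List (Wd A × ℕ)) (p : List (ℕ × Bool)) : Wd A := p.flatMap (tok l)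

def cost (t : ℕ) (p : List (ℕ × Bool)) : ℕ := p.foldr (fun a s => 2 ^ (t - a.1) + s) 0

def toks (t : ℕ) : List (ℕ × Bool) := (List.range t).flatMap fun j => [(j, true), (j, false)]

def task (A : Type) [Primcodable A] (i : ℕ) : Wd A := (Encodable.decode i).getD []

theorem primrec_ent : Primrec₂ (ent : List (Wd A × ℕ) → ℕ → Wd A × ℕ) := Primrec.list_getD _

theorem primrec_word : Primrec₂ (word : List (Wd A × ℕ) → List (ℕ × Bool) → Wd A) := by
  have h1 : Primrec fun x : (List (Wd A × ℕ) × List (ℕ × Bool)) × (ℕ × Bool) =>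
      (ent x.1.1 x.2.1).1 := Primrec.fst.comp (primrec_ent.comp (Primrec.fst.comp Primrec.fst)
        (Primrec.fst.comp Primrec.snd))
  exact Primrec.list_flatMap Primrec.snd
    (Primrec.cond (Primrec.snd.comp Primrec.snd) h1 (primrec_inv.comp h1)).to₂

theorem primrec_cost : Primrec₂ cost :=
  Primrec.list_foldr (h := fun (x : ℕ × List (ℕ × Bool)) (y : (ℕ × Bool) × ℕ) =>
    2 ^ (x.1 - y.1.1) + y.2) Primrec.snd (Primrec.const 0)
    (Primrec.nat_add.comp (primrec_pow2.comp (Primrec.nat_sub.comp (Primrec.fst.comp Primrec.fst)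
      (Primrec.fst.comp (Primrec.fst.comp Primrec.snd)))) (Primrec.snd.comp Primrec.snd)).to₂

theorem primrec_toks : Primrec toks :=
  Primrec.list_flatMap Primrec.list_range
    (Primrec.list_cons.comp (Primrec.snd.pair (Primrec.const true))
      (Primrec.list_cons.comp (Primrec.snd.pair (Primrec.const false)) (Primrec.const []))).to₂

theorem primrec_task : Primrec (task A) :=
  Primrec.option_getD.comp Primrec.decode (Primrec.const [])

theorem mem_toks (t : ℕ) (a : ℕ × Bool) : a ∈ toks t ↔ a.1 < t := by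
  obtain ⟨j, b⟩ := a
  cases b <;> simp [toks]

section
variable {α : Type} [Primcodable α]
@[fun_prop] theorem c_pow2 {f : α → ℕ} (hf : Computable f) : Computable fun x => 2 ^ f x :=
  primrec_pow2.to_comp.comp hf
@[fun_prop] theorem c_inv {f : α → Wd A} (hf : Computable f) :
    Computable fun x => FreeGroup.invRev (f x) := primrec_inv.to_comp.comp hf
@[fun_prop] theorem c_ent {f : α → List (Wd A × ℕ)} {g : α → ℕ} (hf : Computable f)
    (hg : Computable g) : Computable fun x => ent (f x) (g x) := primrec_ent.to_comp.comp hf hg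
@[fun_prop] theorem c_word {f : α → List (Wd A × ℕ)} {g : α → List (ℕ × Bool)} (hf : Computable f)
    (hg : Computable g) : Computable fun x => word (f x) (g x) := primrec_word.to_comp.comp hf hg
@[fun_prop] theorem c_cost {f : α → ℕ} {g : α → List (ℕ × Bool)} (hf : Computable f)
    (hg : Computable g) : Computable fun x => cost (f x) (g x) := primrec_cost.to_comp.comp hf hg
@[fun_prop] theorem c_task {f : α → ℕ} (hf : Computable f) : Computable fun x => task A (f x) :=
  primrec_task.to_comp.comp hf
@[fun_prop] theorem c_div {f g : α → ℕ} (hf : Computable f) (hg : Computable g) :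
    Computable fun x => f x / g x := Primrec.nat_div.to_comp.comp hf hg
end

/-- All products considered at a stage. -/
def allP (k t : ℕ) : List (List (ℕ × Bool)) := allL (toks k) (2 ^ t)

@[fun_prop] theorem c_allP {α : Type} [Primcodable α] {f g : α → ℕ} (hf : Computable f)
    (hg : Computable g) : Computable fun x => allP (f x) (g x) :=
  (primrec_allL (primrec_toks.comp Primrec.fst) (primrec_pow2.comp Primrec.snd)).to_comp.comp
    (hf.pair hg)

/-- The word treated at stage `t`. -/
def xt (A : Type) [Primcodable A] (t : ℕ) : Wd A := task A t.unpair.1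

@[fun_prop] theorem c_xt {α : Type} [Primcodable α] {f : α → ℕ} (hf : Computable f) :
    Computable fun x => xt A (f x) := by
  unfold xt
  fun_prop

/-- The r.e. condition checked at stage `t`. -/
def Step (E : Wd A → Prop) (D : Wd A → ℕ → Bool) (t : ℕ) (l : List (Wd A × ℕ)) (c : Wd A × ℕ) :
    Prop :=
  c.2 ≤ 2 ^ t ∧
  (c.2 = 2 ^ t ∨ ∃ q ∈ allP t t, cost t q ≤ c.2 ∧ c.1 = FreeGroup.invRev (word l q) ++ xt A t) ∧
  (0 < c.2 ∨ D (xt A t) t.unpair.2 = false) ∧
  ∀ j < t + 1, ∀ p ∈ allP (t + 1) t, (ent (l ++ [c]) j).2 * 2 ^ (t - j) ≤ cost t p ∨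
    E (FreeGroup.invRev (word (l ++ [c]) p) ++ xt A j)

theorem re_step {E : Wd A → Prop} (hE : REPred E) {D : Wd A → ℕ → Bool} (hD : Computable₂ D) :
    REPred fun p : (ℕ × List (Wd A × ℕ)) × (Wd A × ℕ) => Step E D p.1.1 p.1.2 p.2 := by
  unfold Step
  refine RE.and (RE.le (by fun_prop) (by fun_prop)) (RE.and (RE.or (RE.eq (by fun_prop)
    (by fun_prop)) ?_) (RE.and (RE.or (RE.lt (by fun_prop) (by fun_prop))
      (RE.eq (hD.comp (by fun_prop) (by fun_prop)) (by fun_prop))) ?_))
  · exact RE.ex_mem (p := fun (p : (ℕ × List (Wd A × ℕ)) × (Wd A × ℕ)) q =>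
      cost p.1.1 q ≤ p.2.2 ∧ p.2.1 = FreeGroup.invRev (word p.1.2 q) ++ xt A p.1.1)
      (RE.and (RE.le (by fun_prop) (by fun_prop)) (RE.eq (by fun_prop) (by fun_prop)))
      (by fun_prop)
  · refine RE.all_lt (p := fun (p : (ℕ × List (Wd A × ℕ)) × (Wd A × ℕ)) j =>
      ∀ q ∈ allP (p.1.1 + 1) p.1.1, (ent (p.1.2 ++ [p.2]) j).2 * 2 ^ (p.1.1 - j) ≤ cost p.1.1 q ∨
        E (FreeGroup.invRev (word (p.1.2 ++ [p.2]) q) ++ xt A j)) ?_ (by fun_prop)
    exact RE.all_mem (p := fun (x : ((ℕ × List (Wd A × ℕ)) × (Wd A × ℕ)) × ℕ) q =>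
      (ent (x.1.1.2 ++ [x.1.2]) x.2).2 * 2 ^ (x.1.1.1 - x.2) ≤ cost x.1.1.1 q ∨
        E (FreeGroup.invRev (word (x.1.1.2 ++ [x.1.2]) q) ++ xt A x.2))
      (RE.or (RE.le (by fun_prop) (by fun_prop)) (RE.comp hE (by fun_prop))) (by fun_prop)

end Pool.Agent.H891Z.CN
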