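import Pool.Agent.H891Z.CN1

set_option autoImplicit false

namespace Pool.Agent.H891Z.CN

open Pool.Agent.Helper926

variable {A : Type} {G : Type} [Group G]

/-- Evaluation of words in a group. -/
structure Ev (A G : Type) [Group G] where
  π : Wd A → G
  nil : π [] = 1
  app : ∀ a b, π (a ++ b) = π a * π b
  inv : ∀ a, π (FreeGroup.invRev a) = (π a)⁻¹

def val (U : ℕ → G) (p : List (ℕ × Bool)) : G :=
  (p.map fun a => bif a.2 then U a.1 else (U a.1)⁻¹).prod

noncomputable def costR (p : List (ℕ × Bool)) : ℝ := (p.map fun a => (1 / 2 : ℝ) ^ a.1).sum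

theorem val_cons (U : ℕ → G) (a : ℕ × Bool) (p : List (ℕ × Bool)) :
    val U (a :: p) = (bif a.2 then U a.1 else (U a.1)⁻¹) * val U p := by simp [val]

theorem val_append (U : ℕ → G) (p q : List (ℕ × Bool)) : val U (p ++ q) = val U p * val U q := by
  simp [val]

theorem costR_cons (a : ℕ × Bool) (p : List (ℕ × Bool)) :
    costR (a :: p) = (1 / 2 : ℝ) ^ a.1 + costR p := by simp [costR]

theorem costR_append (p q : List (ℕ × Bool)) : costR (p ++ q) = costR p + costR q := by
  simp [costR]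

theorem costR_nonneg (p : List (ℕ × Bool)) : 0 ≤ costR p := by
  induction p with
  | nil => simp [costR]
  | cons a p ih => rw [costR_cons]; positivity

theorem val_invRev (U : ℕ → G) (p : List (ℕ × Bool)) :
    val U (FreeGroup.invRev p) = (val U p)⁻¹ := by
  induction p with
  | nil => simp [val]
  | cons a p ih =>
    obtain ⟨j, b⟩ := a
    rw [FreeGroup.invRev_cons, val_append, ih, val_cons]
    cases b <;> simp [val, FreeGroup.invRev]

theorem costR_invRev (p : List (ℕ × Bool)) : costR (FreeGroup.invRev p) = costR p := by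
  induction p with
  | nil => simp [costR]
  | cons a p ih =>
    rw [FreeGroup.invRev_cons, costR_append, ih, costR_cons]
    simp [costR, FreeGroup.invRev, add_comm]

theorem cost_eq {t : ℕ} {p : List (ℕ × Bool)} (h : ∀ a ∈ p, a.1 ≤ t) :
    (cost t p : ℝ) = 2 ^ t * costR p := by
  induction p with
  | nil => simp [cost, costR]
  | cons a p ih =>
    have h1 : cost t (a :: p) = 2 ^ (t - a.1) + cost t p := rfl
    rw [h1, costR_cons, mul_add, ← ih fun b hb => h b (List.mem_cons_of_mem _ hb)]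
    push_cast
    congr 1
    obtain ⟨k, hk⟩ := Nat.exists_eq_add_of_le (h a List.mem_cons_self)
    rw [hk, Nat.add_sub_cancel_left, pow_add, one_div, inv_pow]
    field_simp

theorem length_le_cost (t : ℕ) (p : List (ℕ × Bool)) : p.length ≤ cost t p := by
  induction p with
  | nil => simp
  | cons a p ih =>
    have h1 : cost t (a :: p) = 2 ^ (t - a.1) + cost t p := rfl
    have h2 : 0 < 2 ^ (t - a.1) := by positivity
    rw [h1, List.length_cons]
    omega

theorem ent_map (f : ℕ → Wd A × ℕ) {n j : ℕ} (h : j < n) : ent ((List.range n).map f) j = f j := by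
  simp [ent, List.getD_eq_getElem?_getD, h]

theorem pi_word (e : Ev A G) (f : ℕ → Wd A × ℕ) {n : ℕ} {p : List (ℕ × Bool)}
    (h : ∀ a ∈ p, a.1 < n) :
    e.π (word ((List.range n).map f) p) = val (fun j => e.π (f j).1) p := by
  induction p with
  | nil => simp [word, val, e.nil]
  | cons a p ih =>
    have h1 : word ((List.range n).map f) (a :: p) =
        tok ((List.range n).map f) a ++ word ((List.range n).map f) p := by simp [word]
    rw [h1, e.app, ih fun b hb => h b (List.mem_cons_of_mem _ hb), val_cons, tok,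
      ent_map f (h a List.mem_cons_self)]
    cases a.2 <;> simp [e.inv]

theorem val_congr {U U' : ℕ → G} {p : List (ℕ × Bool)} (h : ∀ a ∈ p, U a.1 = U' a.1) :
    val U p = val U' p := by
  unfold val
  congr 1
  exact List.map_congr_left fun a ha => by rw [h a ha]

theorem val_filter {U : ℕ → G} {t : ℕ} (hU : U t = 1) {p : List (ℕ × Bool)}
    (h : ∀ a ∈ p, a.1 ≤ t) : ∃ q : List (ℕ × Bool), (∀ a ∈ q, a.1 < t) ∧ costR q ≤ costR p ∧
      val U q = val U p := by
  induction p with
  | nil => exact ⟨[], by simp, le_rfl, rfl⟩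
  | cons a p ih =>
    obtain ⟨q, h1, h2, h3⟩ := ih fun b hb => h b (List.mem_cons_of_mem _ hb)
    rcases (h a List.mem_cons_self).eq_or_lt with e | e
    · refine ⟨q, h1, ?_, ?_⟩
      · rw [costR_cons]
        have : 0 ≤ (1 / 2 : ℝ) ^ a.1 := by positivity
        linarith
      · rw [val_cons, e, hU, h3]
        cases a.2 <;> simp
    · refine ⟨a :: q, ?_, ?_, ?_⟩
      · intro b hb
        rcases List.mem_cons.1 hb with rfl | hb
        · exact e
        · exact h1 b hb
      · rw [costR_cons, costR_cons]; linarith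
      · rw [val_cons, val_cons, h3]

theorem mem_allP {k t : ℕ} {p : List (ℕ × Bool)} :
    p ∈ allP k t ↔ p.length ≤ 2 ^ t ∧ ∀ a ∈ p, a.1 < k := by
  simp only [allP, mem_allL, mem_toks]

variable [Primcodable A]

/-- The semantic content of a step. -/
structure Sem (e : Ev A G) (D : Wd A → ℕ → Bool) (f : ℕ → Wd A × ℕ) (t : ℕ) : Prop where
  cap : (f t).2 ≤ 2 ^ t
  up : (f t).2 = 2 ^ t ∨ ∃ q : List (ℕ × Bool), costR q ≤ (f t).2 / 2 ^ t ∧
    val (fun j => e.π (f j).1) q * e.π (f t).1 = e.π (xt A t)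
  pos : D (xt A t) t.unpair.2 = true → 0 < (f t).2
  low : ∀ j ≤ t, ∀ p : List (ℕ × Bool), (∀ a ∈ p, a.1 ≤ t) → costR p < 1 →
    costR p < (f j).2 / 2 ^ j → val (fun j => e.π (f j).1) p ≠ e.π (xt A j)

theorem scale {j t : ℕ} (h : j ≤ t) (m : ℕ) :
    ((m * 2 ^ (t - j) : ℕ) : ℝ) = 2 ^ t * ((m : ℝ) / 2 ^ j) := by
  obtain ⟨k, rfl⟩ := Nat.exists_eq_add_of_le h
  rw [Nat.add_sub_cancel_left]
  push_cast
  rw [pow_add]
  field_simp

theorem sem_of_step (e : Ev A G) {D : Wd A → ℕ → Bool} {f : ℕ → Wd A × ℕ} {t : ℕ}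
    (h : Step (fun w => e.π w ≠ 1) D t ((List.range t).map f) (f t)) : Sem e D f t := by
  obtain ⟨h1, h2, h3, h4⟩ := h
  have hl : (List.range t).map f ++ [f t] = (List.range (t + 1)).map f := by
    rw [List.range_succ, List.map_append]; rfl
  refine ⟨h1, ?_, ?_, ?_⟩
  · rcases h2 with h2 | ⟨q, hq, hc, hu⟩
    · exact Or.inl h2
    · have hq' := (mem_allP.1 hq).2
      refine Or.inr ⟨q, ?_, ?_⟩
      · rw [le_div_iff₀ (by positivity), mul_comm, ← cost_eq fun a ha => (hq' a ha).le]
        exact_mod_cast hc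
      · rw [hu, e.app, e.inv, pi_word e f hq']
        simp
  · intro hD
    rcases h3 with h3 | h3
    · exact h3
    · rw [hD] at h3; exact absurd h3 (by simp)
  · intro j hj p hp hc1 hc2 hv
    have hce := cost_eq hp
    have hlen : p.length ≤ 2 ^ t := by
      refine (length_le_cost t p).trans ?_
      have : (cost t p : ℝ) ≤ 2 ^ t := by
        rw [hce]
        have : (0 : ℝ) < 2 ^ t := by positivity
        nlinarith
      exact_mod_cast this
    have hp' : ∀ a ∈ p, a.1 < t + 1 := fun a ha => Nat.lt_succ_of_le (hp a ha)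
    rcases h4 j (Nat.lt_succ_of_le hj) p (mem_allP.2 ⟨hlen, hp'⟩) with h5 | h5
    · rw [hl, ent_map f (Nat.lt_succ_of_le hj)] at h5
      have h6 : (((f j).2 * 2 ^ (t - j) : ℕ) : ℝ) ≤ cost t p := by exact_mod_cast h5
      rw [scale hj, hce] at h6
      have : (0 : ℝ) < 2 ^ t := by positivity
      nlinarith
    · apply h5
      rw [hl, e.app, e.inv, pi_word e f hp', hv]
      simp

theorem step_solvable (e : Ev A G) {D : Wd A → ℕ → Bool}
    (hD : ∀ w s, D w s = true → e.π w ≠ 1) (t : ℕ) (f : ℕ → Wd A × ℕ)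
    (hf : ∀ m < t, Sem e D f m) :
    ∃ c, Step (fun w => e.π w ≠ 1) D t ((List.range t).map f) c := by
  classical
  let U : ℕ → G := fun j => e.π (f j).1
  let S : List (ℕ × Bool) → Prop := fun p =>
    (∀ a ∈ p, a.1 < t) ∧ costR p < 1 ∧ val U p = e.π (xt A t)
  have h2t : (0 : ℝ) < 2 ^ t := by positivity
  have main : ∀ c : Wd A × ℕ, e.π c.1 = 1 → c.2 ≤ 2 ^ t → (∀ p, S p → c.2 ≤ cost t p) →
      ∀ j < t + 1, ∀ p ∈ allP (t + 1) t,
        (ent ((List.range t).map f ++ [c]) j).2 * 2 ^ (t - j) ≤ cost t p ∨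
        e.π (FreeGroup.invRev (word ((List.range t).map f ++ [c]) p) ++ xt A j) ≠ 1 := by
    intro c hc1 hc2 hmin j hj p hp
    let f' := Function.update f t c
    have hl : (List.range t).map f ++ [c] = (List.range (t + 1)).map f' := by
      rw [List.range_succ, List.map_append]
      congr 1
      · refine List.map_congr_left fun a ha => ?_
        simp only [f']
        rw [Function.update_of_ne (List.mem_range.1 ha).ne]
      · simp [f']
    have hp' := (mem_allP.1 hp).2
    have hp2 : ∀ a ∈ p, a.1 ≤ t := fun a ha => Nat.le_of_lt_succ (hp' a ha)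
    rw [hl, ent_map f' hj, e.app, e.inv, pi_word e f' hp']
    by_contra hcon
    push Not at hcon
    obtain ⟨hlt, hv⟩ := hcon
    rw [inv_mul_eq_one] at hv
    obtain ⟨q, hq1, hq2, hq3⟩ := val_filter (U := fun j => e.π (f' j).1) (t := t)
      (by simp [f', hc1]) hp2
    have hq4 : val U q = e.π (xt A j) := by
      rw [← hv, ← hq3]
      refine val_congr fun a ha => ?_
      simp only [U, f']
      rw [Function.update_of_ne (hq1 a ha).ne]
    have hj' : j ≤ t := Nat.le_of_lt_succ hj
    have h6 : (cost t p : ℝ) < (((f' j).2 * 2 ^ (t - j) : ℕ) : ℝ) := by exact_mod_cast hlt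
    rw [scale hj', cost_eq hp2] at h6
    have h7 : costR q < (f' j).2 / 2 ^ j := hq2.trans_lt (lt_of_mul_lt_mul_left h6 h2t.le)
    rcases hj'.eq_or_lt with rfl | hjt
    · have e1 : f' j = c := by simp [f']
      rw [e1] at h7
      have h8 : (c.2 : ℝ) / 2 ^ j ≤ 1 := by
        rw [div_le_one h2t]; exact_mod_cast hc2
      have h9 : (c.2 : ℝ) ≤ cost j q := by exact_mod_cast hmin q ⟨hq1, h7.trans_le h8, hq4⟩
      rw [cost_eq fun a ha => (hq1 a ha).le] at h9
      rw [lt_div_iff₀ h2t] at h7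
      linarith
    · have e1 : f' j = f j := Function.update_of_ne hjt.ne _ _
      rw [e1] at h7
      have h8 : ((f j).2 : ℝ) / 2 ^ j ≤ 1 := by
        rw [div_le_one (by positivity)]; exact_mod_cast (hf j hjt).cap
      obtain ⟨t', rfl⟩ := Nat.exists_eq_add_one_of_ne_zero (Nat.ne_zero_of_lt hjt)
      exact (hf t' (Nat.lt_succ_self _)).low j (Nat.le_of_lt_succ hjt) q
        (fun a ha => Nat.le_of_lt_succ (hq1 a ha)) (h7.trans_le h8) h7 hq4
  by_cases hS : ∃ k, ∃ p, S p ∧ cost t p = k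
  · obtain ⟨p0, hp0, hk⟩ := Nat.find_spec hS
    have hmin : ∀ p, S p → cost t p0 ≤ cost t p := fun p hp => hk ▸ Nat.find_min' hS ⟨p, hp, rfl⟩
    have hc2 : cost t p0 ≤ 2 ^ t := by
      have : (cost t p0 : ℝ) ≤ 2 ^ t := by
        rw [cost_eq fun a ha => (hp0.1 a ha).le]
        nlinarith [hp0.2.1]
      exact_mod_cast this
    refine ⟨(FreeGroup.invRev (word ((List.range t).map f) p0) ++ xt A t, cost t p0), hc2,
      Or.inr ⟨p0, mem_allP.2 ⟨(length_le_cost t p0).trans hc2, hp0.1⟩, le_rfl, rfl⟩, ?_,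
      main _ ?_ hc2 hmin⟩
    · by_contra hcon
      push Not at hcon
      have h0 : p0 = [] := List.length_eq_zero_iff.1
        (Nat.le_zero.1 ((length_le_cost t p0).trans hcon.1))
      have h1 := hp0.2.2
      rw [h0] at h1
      exact hD _ _ (by simpa using hcon.2) (by simpa [val] using h1.symm)
    · rw [e.app, e.inv, pi_word e f hp0.1, inv_mul_eq_one]
      exact hp0.2.2
  · exact ⟨([], 2 ^ t), le_rfl, Or.inl rfl, Or.inl (by positivity),
      main _ e.nil le_rfl fun p hp => absurd ⟨_, p, hp, rfl⟩ hS⟩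

theorem exists_sem (e : Ev A G) (hE : REPred fun w => e.π w ≠ 1) :
    ∃ (D : Wd A → ℕ → Bool) (f : ℕ → Wd A × ℕ), Computable f ∧
      (∀ w, e.π w ≠ 1 → ∃ s, D w s = true) ∧ ∀ t, Sem e D f t := by
  obtain ⟨D, hD, hD'⟩ := RE.re_iff.1 hE
  obtain ⟨f, hf, hstep⟩ := inv_rec_sel (re_step hE hD) fun n f h =>
    step_solvable e (fun w s h => (hD' w).2 ⟨s, h⟩) n f fun m hm => sem_of_step e (h m hm)
  exact ⟨D, f, hf, fun w h => (hD' w).1 h, fun t => sem_of_step e (hstep t)⟩

end Pool.Agent.H891Z.CN
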