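import Pool.Agent.H891Z.CN2

set_option autoImplicit false

namespace Pool.Agent.H891Z.CN

open Pool.Agent.Helper926

variable {G : Type} [Group G]

def cset (U : ℕ → G) (g : G) : Set ℝ := {r | r = 1 ∨ ∃ p, val U p = g ∧ costR p = r}

/-- The norm. -/
noncomputable def rho (U : ℕ → G) (g : G) : ℝ := sInf (cset U g)

theorem cset_ne (U : ℕ → G) (g : G) : (cset U g).Nonempty := ⟨1, Or.inl rfl⟩

theorem cset_nonneg {U : ℕ → G} {g : G} {r : ℝ} (h : r ∈ cset U g) : 0 ≤ r := by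
  rcases h with rfl | ⟨p, -, rfl⟩
  · exact zero_le_one
  · exact costR_nonneg p

theorem rho_le {U : ℕ → G} {g : G} {r : ℝ} (h : r ∈ cset U g) : rho U g ≤ r :=
  csInf_le ⟨0, fun _ h => cset_nonneg h⟩ h

theorem rho_nonneg (U : ℕ → G) (g : G) : 0 ≤ rho U g :=
  le_csInf (cset_ne U g) fun _ h => cset_nonneg h

theorem rho_one (U : ℕ → G) : rho U 1 = 0 :=
  le_antisymm (rho_le (Or.inr ⟨[], by simp [val], by simp [costR]⟩)) (rho_nonneg U 1)

theorem rho_inv_le (U : ℕ → G) (g : G) : rho U g⁻¹ ≤ rho U g := by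
  refine le_csInf (cset_ne U g) fun r h => rho_le ?_
  rcases h with rfl | ⟨p, rfl, rfl⟩
  · exact Or.inl rfl
  · exact Or.inr ⟨_, val_invRev U p, costR_invRev p⟩

theorem rho_inv (U : ℕ → G) (g : G) : rho U g⁻¹ = rho U g :=
  le_antisymm (rho_inv_le U g) (by simpa using rho_inv_le U g⁻¹)

theorem rho_mul (U : ℕ → G) (g h : G) : rho U (g * h) ≤ rho U g + rho U h := by
  have key : ∀ a ∈ cset U g, ∀ b ∈ cset U h, rho U (g * h) ≤ a + b := by
    intro a ha b hb
    have h1 : rho U (g * h) ≤ 1 := rho_le (Or.inl rfl)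
    have ha0 := cset_nonneg ha
    have hb0 := cset_nonneg hb
    rcases ha with rfl | ⟨p, rfl, rfl⟩
    · linarith
    · rcases hb with rfl | ⟨q, rfl, rfl⟩
      · linarith
      · exact rho_le (Or.inr ⟨p ++ q, val_append U p q, costR_append p q⟩)
  have h2 : ∀ b ∈ cset U h, rho U (g * h) - b ≤ rho U g := fun b hb =>
    le_csInf (cset_ne U g) fun a ha => by linarith [key a ha b hb]
  have h3 : rho U (g * h) - rho U g ≤ rho U h :=
    le_csInf (cset_ne U h) fun b hb => by linarith [h2 b hb]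
  linarith

variable {A : Type} [Primcodable A]

theorem rho_bounds {e : Ev A G} {D : Wd A → ℕ → Bool} {f : ℕ → Wd A × ℕ} (h : ∀ t, Sem e D f t)
    (t : ℕ) : ((f t).2 : ℝ) / 2 ^ t ≤ rho (fun j => e.π (f j).1) (e.π (xt A t)) ∧
      rho (fun j => e.π (f j).1) (e.π (xt A t)) ≤ ((f t).2 + 1 : ℝ) / 2 ^ t := by
  have h2t : (0 : ℝ) < 2 ^ t := by positivity
  have hcap : ((f t).2 : ℝ) / 2 ^ t ≤ 1 := by
    rw [div_le_one h2t]; exact_mod_cast (h t).cap
  constructor
  · refine le_csInf (cset_ne _ _) fun r hr => ?_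
    rcases hr with rfl | ⟨p, hp, rfl⟩
    · exact hcap
    · by_contra hc
      have hc' := not_le.1 hc
      obtain ⟨T, hT⟩ : ∃ T, ∀ a ∈ p, a.1 ≤ T :=
        ⟨(p.map Prod.fst).sum, fun a ha => List.le_sum_of_mem (List.mem_map_of_mem ha)⟩
      exact (h (max T t)).low t (le_max_right _ _) p (fun a ha => (hT a ha).trans (le_max_left _ _))
        (hc'.trans_le hcap) hc' hp
  · rcases (h t).up with h1 | ⟨q, hq, hv⟩
    · refine (rho_le (Or.inl rfl)).trans ?_
      rw [le_div_iff₀ h2t, h1]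
      push_cast
      linarith
    · refine (rho_le (Or.inr ⟨q ++ [(t, true)], ?_, rfl⟩)).trans ?_
      · rw [val_append, ← hv]
        simp [val]
      · rw [costR_append, add_div]
        refine add_le_add hq (le_of_eq ?_)
        simp [costR]

theorem xt_pair (x : Wd A) (k : ℕ) : xt A (Nat.pair (Encodable.encode x) k) = x := by
  simp [xt, task]

theorem exists_norm (e : Ev A G) (hE : REPred fun w => e.π w ≠ 1) :
    ∃ (ρ : G → ℝ) (q : Wd A × ℕ → ℕ), Computable q ∧ ρ 1 = 0 ∧ (∀ g, ρ g⁻¹ = ρ g) ∧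
      (∀ g h, ρ (g * h) ≤ ρ g + ρ h) ∧ (∀ w, e.π w ≠ 1 → 0 < ρ (e.π w)) ∧
      ∀ w k, |ρ (e.π w) - (q (w, k) : ℝ) / 2 ^ k| ≤ 1 / 2 ^ k := by
  obtain ⟨D, f, hf, hD, hs⟩ := exists_sem e hE
  refine ⟨rho fun j => e.π (f j).1, fun x => (f (Nat.pair (Encodable.encode x.1) x.2)).2 /
    2 ^ (Nat.pair (Encodable.encode x.1) x.2 - x.2), by fun_prop, rho_one _, rho_inv _, rho_mul _,
    fun w hw => ?_, fun w k => ?_⟩
  · obtain ⟨s, hs'⟩ := hD w hw
    have h1 := (rho_bounds hs (Nat.pair (Encodable.encode w) s)).1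
    have h2 := (hs (Nat.pair (Encodable.encode w) s)).pos (by
      rw [xt_pair, Nat.unpair_pair]; exact hs')
    rw [xt_pair] at h1
    refine lt_of_lt_of_le ?_ h1
    positivity
  · obtain ⟨h1, h2⟩ := rho_bounds hs (Nat.pair (Encodable.encode w) k)
    rw [xt_pair] at h1 h2
    simp only
    obtain ⟨d, hd⟩ := Nat.exists_eq_add_of_le (Nat.right_le_pair (Encodable.encode w) k)
    generalize (f (Nat.pair (Encodable.encode w) k)).2 = m at h1 h2 ⊢
    rw [hd] at h1 h2 ⊢
    rw [Nat.add_sub_cancel_left]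
    have hp : 0 < 2 ^ d := by positivity
    have a1 : ((m / 2 ^ d : ℕ) : ℝ) * 2 ^ d ≤ m := by exact_mod_cast Nat.div_mul_le_self m (2 ^ d)
    have a2 : (m : ℝ) + 1 ≤ (((m / 2 ^ d : ℕ) : ℝ) + 1) * 2 ^ d := by
      have := Nat.lt_div_mul_add (a := m) hp
      have h3 : m + 1 ≤ (m / 2 ^ d + 1) * 2 ^ d := by rw [add_mul, one_mul]; omega
      exact_mod_cast h3
    have hk : (0 : ℝ) < 2 ^ k := by positivity
    have hd' : (0 : ℝ) < 2 ^ d := by positivity
    have b1 : ((m / 2 ^ d : ℕ) : ℝ) / 2 ^ k ≤ (m : ℝ) / 2 ^ (k + d) := by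
      rw [pow_add, div_le_div_iff₀ hk (by positivity)]
      nlinarith
    have b2 : ((m : ℝ) + 1) / 2 ^ (k + d) ≤ (((m / 2 ^ d : ℕ) : ℝ) + 1) / 2 ^ k := by
      rw [pow_add, div_le_div_iff₀ (by positivity) hk]
      nlinarith
    rw [add_div ((m / 2 ^ d : ℕ) : ℝ)] at b2
    rw [abs_le]
    have : (0 : ℝ) < 1 / 2 ^ k := by positivity
    constructor <;> linarith

theorem exists_space (ρ : G → ℝ) (h1 : ρ 1 = 0) (h2 : ∀ g, ρ g⁻¹ = ρ g)
    (h3 : ∀ g h, ρ (g * h) ≤ ρ g + ρ h) :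
    ∃ (X : Type) (_ : MetricSpace X) (_ : CompleteSpace X) (ι : G → X), DenseRange ι ∧
      (∀ a b, dist (ι a) (ι b) = ρ (a⁻¹ * b)) ∧
      ∃ φ : G →* (X ≃ᵢ X), ∀ g a, φ g (ι a) = ι (g * a) := by
  let _ : PseudoMetricSpace G :=
    { dist := fun a b => ρ (a⁻¹ * b)
      dist_self := fun a => by simp [h1]
      dist_comm := fun a b => by rw [← h2]; simp
      dist_triangle := fun a b c => by simpa [mul_assoc] using h3 (a⁻¹ * b) (b⁻¹ * c) }
  have hiso : ∀ g : G, Isometry (fun a : G => g * a) := fun g =>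
    Isometry.of_dist_eq fun a b => by
      show ρ ((g * a)⁻¹ * (g * b)) = ρ (a⁻¹ * b)
      simp [mul_assoc]
  let m : G → UniformSpace.Completion G → UniformSpace.Completion G :=
    fun g => UniformSpace.Completion.map fun a => g * a
  have hm : ∀ g a : G, m g (a : UniformSpace.Completion G) = ((g * a : G) : _) := fun g a =>
    UniformSpace.Completion.map_coe (hiso g).uniformContinuous a
  have hc : ∀ g, Continuous (m g) := fun g => UniformSpace.Completion.continuous_map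
  have hmul : ∀ g h x, m (g * h) x = m g (m h x) := fun g h =>
    congrFun (UniformSpace.Completion.ext (hc _) ((hc _).comp (hc _)) fun a => by
      simp only [hm, mul_assoc])
  have hone : ∀ x, m 1 x = x :=
    congrFun (UniformSpace.Completion.ext (hc _) continuous_id fun a => by simp [hm])
  let ψ : G → (UniformSpace.Completion G ≃ᵢ UniformSpace.Completion G) := fun g =>
    { toFun := m g
      invFun := m g⁻¹
      left_inv := fun x => by rw [← hmul, inv_mul_cancel, hone]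
      right_inv := fun x => by rw [← hmul, mul_inv_cancel, hone]
      isometry_toFun := (hiso g).completion_map }
  refine ⟨UniformSpace.Completion G, inferInstance, inferInstance, (↑),
    UniformSpace.Completion.denseRange_coe, fun a b => UniformSpace.Completion.dist_eq a b,
    ⟨⟨ψ, IsometryEquiv.ext hone⟩, fun g h => IsometryEquiv.ext (hmul g h)⟩, hm⟩

theorem main :
    ∀ (n : ℕ) (N : Subgroup (FreeGroup (Fin n))), N.Normal →
      REPred (fun w : List (Fin n × Bool) => FreeGroup.mk w ∉ N) →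
      ∃ (X : Type) (_ : MetricSpace X) (_ : CompleteSpace X) (s : ℕ → X),
        DenseRange s ∧
        (∃ q : ℕ × ℕ × ℕ → ℕ, Computable q ∧
          ∀ i j k : ℕ, |dist (s i) (s j) - (q (i, j, k) : ℝ) / 2 ^ k| ≤ 1 / 2 ^ k) ∧
        ∃ φ : FreeGroup (Fin n) →* (X ≃ᵢ X), φ.ker = N ∧
          ∀ g : FreeGroup (Fin n), ∃ h : ℕ × ℕ → ℕ, Computable h ∧
            ∀ i k : ℕ, dist (φ g (s i)) (s (h (i, k))) ≤ 1 / 2 ^ k := by
  intro n N hN hE
  let e : Ev (Fin n) (FreeGroup (Fin n) ⧸ N) :=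
    { π := fun w => QuotientGroup.mk (FreeGroup.mk w)
      nil := rfl
      app := fun a b => by rw [← FreeGroup.mul_mk, QuotientGroup.mk_mul]
      inv := fun a => by rw [← FreeGroup.inv_mk, QuotientGroup.mk_inv] }
  have hE' : REPred fun w => e.π w ≠ 1 := hE.of_eq fun w => by
    simp only [e, ne_eq, QuotientGroup.eq_one_iff]
  obtain ⟨ρ, q, hq, r1, r2, r3, r4, r5⟩ := exists_norm e hE'
  obtain ⟨X, i1, i2, ι, hι, hd, φ, hφ⟩ := exists_space ρ r1 r2 r3
  have hsurj : ∀ g : FreeGroup (Fin n), ∃ w, FreeGroup.mk w = g := fun g =>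
    ⟨g.toWord, FreeGroup.mk_toWord⟩
  have htask : ∀ w : Wd (Fin n), task (Fin n) (Encodable.encode w) = w := fun w => by simp [task]
  refine ⟨X, i1, i2, fun i => ι (e.π (task (Fin n) i)), ?_,
    ⟨fun x => q (FreeGroup.invRev (task (Fin n) x.1) ++ task (Fin n) x.2.1, x.2.2),
      hq.comp (by fun_prop), fun i j k => ?_⟩, φ.comp (QuotientGroup.mk' N), ?_, fun g => ?_⟩
  · refine hι.mono ?_
    rintro _ ⟨a, rfl⟩
    obtain ⟨g, rfl⟩ := QuotientGroup.mk_surjective a
    obtain ⟨w, rfl⟩ := hsurj g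
    exact ⟨Encodable.encode w, by simp only [htask]; rfl⟩
  · rw [hd, ← e.inv, ← e.app]
    exact r5 _ _
  · ext g
    obtain ⟨w, rfl⟩ := hsurj g
    rw [MonoidHom.mem_ker, ← QuotientGroup.eq_one_iff]
    show φ (e.π w) = 1 ↔ e.π w = 1
    refine ⟨fun h => ?_, fun h => by rw [h, map_one]⟩
    by_contra hc
    have h1 := r4 w hc
    have h2 := hφ (e.π w) 1
    rw [h, mul_one] at h2
    have h3 := hd 1 (e.π w)
    rw [← h2] at h3
    simp at h3
    linarith
  · obtain ⟨w, rfl⟩ := hsurj g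
    refine ⟨fun x => Encodable.encode (w ++ task (Fin n) x.1), by fun_prop, fun i k => ?_⟩
    simp only [htask]
    have : (φ.comp (QuotientGroup.mk' N)) (FreeGroup.mk w) = φ (e.π w) := rfl
    rw [this, hφ, e.app, dist_self]
    positivity

end Pool.Agent.H891Z.CN
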