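import Mathlib

set_option autoImplicit false

namespace Pool.Agent.H891Z

open Finset

/-- A threshold subset of a bipartite edge set is determined by its degrees. -/
theorem thr_subset {α β : Type} [Fintype α] [Fintype β] [DecidableEq α] [DecidableEq β]
    (E R R' : Finset (α × β)) (f : α → ℝ) (g : β → ℝ)
    (hR : ∀ p ∈ E, p ∈ R ↔ f p.1 ≤ g p.2) (hRE : R ⊆ E) (hRE' : R' ⊆ E)
    (ha : ∀ a, (R.filter (fun p => p.1 = a)).card = (R'.filter (fun p => p.1 = a)).card)
    (hb : ∀ b, (R.filter (fun p => p.2 = b)).card = (R'.filter (fun p => p.2 = b)).card) :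
    R' ⊆ R := by
  have key : ∀ S : Finset (α × β), ∑ p ∈ S, (g p.2 - f p.1) =
      ∑ b, ((S.filter (fun p => p.2 = b)).card : ℝ) * g b -
      ∑ a, ((S.filter (fun p => p.1 = a)).card : ℝ) * f a := by
    intro S
    rw [sum_sub_distrib]
    congr 1
    · rw [← Finset.sum_fiberwise_of_maps_to (s := S) (t := univ) (g := fun p => p.2)
        (fun _ _ => mem_univ _)]
      refine sum_congr rfl fun b _ => ?_
      rw [Finset.sum_congr rfl (g := fun _ => g b)]
      · simp
      · intro p hp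
        rw [(mem_filter.1 hp).2]
    · rw [← Finset.sum_fiberwise_of_maps_to (s := S) (t := univ) (g := fun p => p.1)
        (fun _ _ => mem_univ _)]
      refine sum_congr rfl fun a _ => ?_
      rw [Finset.sum_congr rfl (g := fun _ => f a)]
      · simp
      · intro p hp
        rw [(mem_filter.1 hp).2]
  have h1 : ∑ p ∈ R, (g p.2 - f p.1) = ∑ p ∈ R', (g p.2 - f p.1) := by
    rw [key, key]
    simp only [ha, hb]
  by_contra hne
  rw [Finset.not_subset] at hne
  obtain ⟨q, hq', hq⟩ := hne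
  have e1 := Finset.sum_sdiff_eq_sub (s₁ := R ∩ R') (s₂ := R) (f := fun p => g p.2 - f p.1)
    inter_subset_left
  have e2 := Finset.sum_sdiff_eq_sub (s₁ := R ∩ R') (s₂ := R') (f := fun p => g p.2 - f p.1)
    inter_subset_right
  have p1 : 0 ≤ ∑ p ∈ R \ (R ∩ R'), (g p.2 - f p.1) := by
    refine sum_nonneg fun p hp => ?_
    have hpR := (mem_sdiff.1 hp).1
    have := (hR p (hRE hpR)).1 hpR
    linarith
  have p2 : ∑ p ∈ R' \ (R ∩ R'), (g p.2 - f p.1) < 0 := by
    refine sum_neg (fun p hp => ?_) ⟨q, ?_⟩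
    · have hp1 := (mem_sdiff.1 hp).1
      have hp2 := (mem_sdiff.1 hp).2
      have : ¬ f p.1 ≤ g p.2 := fun h => hp2 (mem_inter.2 ⟨(hR p (hRE' hp1)).2 h, hp1⟩)
      linarith [not_le.1 this]
    · exact mem_sdiff.2 ⟨hq', fun h => hq (mem_inter.1 h).1⟩
  linarith

theorem exists_pow_le (k : ℕ) : ∃ C : ℕ, ∀ d : ℕ, (d + 1) ^ k ≤ C * 2 ^ d := by
  have h := tendsto_pow_const_div_const_pow_of_one_lt k (r := (2 : ℝ)) (by norm_num)
  obtain ⟨M, hM⟩ := h.bddAbove_range
  refine ⟨⌈2 * M⌉₊, fun d => ?_⟩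
  have h1 : (((d + 1 : ℕ) : ℝ)) ^ k / 2 ^ (d + 1) ≤ M := hM ⟨d + 1, rfl⟩
  rw [div_le_iff₀ (by positivity)] at h1
  have h2 : (2 * M) ≤ (⌈2 * M⌉₊ : ℝ) := Nat.le_ceil _
  have h3 : (((d + 1 : ℕ) : ℝ)) ^ k ≤ (⌈2 * M⌉₊ : ℝ) * 2 ^ d := by
    calc (((d + 1 : ℕ) : ℝ)) ^ k ≤ M * 2 ^ (d + 1) := h1
      _ = (2 * M) * 2 ^ d := by ring
      _ ≤ _ := by gcongr
  exact_mod_cast h3

theorem prod_deg_le {α γ : Type} [Fintype α] [DecidableEq α] (E : Finset γ) (π : γ → α)
    (k C : ℕ) (hC : ∀ d : ℕ, (d + 1) ^ k ≤ C * 2 ^ d) :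
    (∏ a, ((E.filter (fun p => π p = a)).card + 1)) ^ k ≤ C ^ Fintype.card α * 2 ^ E.card := by
  rw [← prod_pow]
  calc ∏ a, ((E.filter (fun p => π p = a)).card + 1) ^ k
      ≤ ∏ a, C * 2 ^ (E.filter (fun p => π p = a)).card := prod_le_prod' fun a _ => hC _
    _ = C ^ Fintype.card α * 2 ^ E.card := by
      rw [prod_mul_distrib, prod_const, card_univ, prod_pow_eq_pow_sum,
        ← card_eq_sum_card_fiberwise (fun _ _ => mem_univ _)]

/-- Counting lemma: if every subset of a bipartite edge set is cut out by `K` thresholds then the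
edge set is linear in the number of vertices. -/
theorem count_bound (ι : Type) [Fintype ι] : ∃ D : ℕ, ∀ (α β : Type) [Fintype α] [Fintype β]
    (E : Finset (α × β)),
    (∀ F ⊆ E, ∃ (f : ι → α → ℝ) (g : ι → β → ℝ), ∀ p ∈ E, p ∈ F ↔ ∀ i, f i p.1 ≤ g i p.2) →
    E.card ≤ D * (Fintype.card α + Fintype.card β) := by
  classical
  obtain ⟨C, hC⟩ := exists_pow_le (4 * Fintype.card ι)
  refine ⟨C, fun α β _ _ E h => ?_⟩
  choose! f g hfg using h
  let R : Finset (α × β) → ι → Finset (α × β) := fun F i => E.filter fun p => f F i p.1 ≤ g F i p.2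
  let key : Finset (α × β) → ι → (α → ℕ) × (β → ℕ) := fun F i =>
    (fun a => ((R F i).filter (fun p => p.1 = a)).card,
     fun b => ((R F i).filter (fun p => p.2 = b)).card)
  let A : Finset (α → ℕ) := Fintype.piFinset fun a => range ((E.filter (fun p => p.1 = a)).card + 1)
  let B : Finset (β → ℕ) := Fintype.piFinset fun b => range ((E.filter (fun p => p.2 = b)).card + 1)
  have hmaps : Set.MapsTo key (E.powerset : Set _)
      ((Fintype.piFinset fun _ : ι => A ×ˢ B : Finset _) : Set _) := by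
    intro F _
    rw [mem_coe, Fintype.mem_piFinset]
    intro i
    rw [mem_product]
    constructor
    · simp only [A, Fintype.mem_piFinset, mem_range, key]
      intro a
      exact Nat.lt_succ_of_le (card_le_card (filter_subset_filter _ (filter_subset _ _)))
    · simp only [B, Fintype.mem_piFinset, mem_range, key]
      intro b
      exact Nat.lt_succ_of_le (card_le_card (filter_subset_filter _ (filter_subset _ _)))
  have hinj : Set.InjOn key (E.powerset : Set _) := by
    intro F hF F' hF' hk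
    have hF : F ⊆ E := mem_powerset.1 (mem_coe.1 hF)
    have hF' : F' ⊆ E := mem_powerset.1 (mem_coe.1 hF')
    have hR : ∀ i, R F i = R F' i := by
      intro i
      have h1 := congrFun hk i
      have ha := congrFun (congrArg Prod.fst h1)
      have hb := congrFun (congrArg Prod.snd h1)
      apply Subset.antisymm
      · exact thr_subset E (R F' i) (R F i) (f F' i) (g F' i) (fun p hp => by simp [R, hp])
          (filter_subset _ _) (filter_subset _ _) (fun a => (ha a).symm) (fun b => (hb b).symm)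
      · exact thr_subset E (R F i) (R F' i) (f F i) (g F i) (fun p hp => by simp [R, hp])
          (filter_subset _ _) (filter_subset _ _) ha hb
    have hmem : ∀ G ⊆ E, ∀ p, p ∈ G ↔ p ∈ E ∧ ∀ i, p ∈ R G i := by
      intro G hG p
      constructor
      · intro hp
        refine ⟨hG hp, fun i => mem_filter.2 ⟨hG hp, (hfg G hG p (hG hp)).1 hp i⟩⟩
      · rintro ⟨hp, h⟩
        exact (hfg G hG p hp).2 fun i => (mem_filter.1 (h i)).2
    ext p
    rw [hmem F hF, hmem F' hF']
    simp only [hR]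
  have hcard := card_le_card_of_injOn key hmaps hinj
  rw [card_powerset, Fintype.card_piFinset, prod_const, card_univ, card_product] at hcard
  have hA : A.card ^ (4 * Fintype.card ι) ≤ C ^ Fintype.card α * 2 ^ E.card := by
    simp only [A, Fintype.card_piFinset, card_range]
    exact prod_deg_le E (fun p => p.1) _ C hC
  have hB : B.card ^ (4 * Fintype.card ι) ≤ C ^ Fintype.card β * 2 ^ E.card := by
    simp only [B, Fintype.card_piFinset, card_range]
    exact prod_deg_le E (fun p => p.2) _ C hC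
  have h4 : (2 ^ E.card) ^ 4 ≤ (C ^ Fintype.card α * 2 ^ E.card) * (C ^ Fintype.card β * 2 ^ E.card) := by
    calc (2 ^ E.card) ^ 4 ≤ ((A.card * B.card) ^ Fintype.card ι) ^ 4 := Nat.pow_le_pow_left hcard 4
      _ = A.card ^ (4 * Fintype.card ι) * B.card ^ (4 * Fintype.card ι) := by
        rw [← pow_mul, mul_pow, mul_comm (Fintype.card ι) 4]
      _ ≤ _ := Nat.mul_le_mul hA hB
  have h5 : 2 ^ E.card ≤ C ^ (Fintype.card α + Fintype.card β) := by
    have hpos : 0 < 2 ^ E.card := by positivity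
    have h6 : (2 ^ E.card * 2 ^ E.card) * (2 ^ E.card * 2 ^ E.card) ≤
        C ^ (Fintype.card α + Fintype.card β) * (2 ^ E.card * 2 ^ E.card) := by
      calc _ = (2 ^ E.card) ^ 4 := by ring
        _ ≤ _ := h4
        _ = _ := by ring
    have h7 := Nat.le_of_mul_le_mul_right h6 (Nat.mul_pos hpos hpos)
    exact le_trans (Nat.le_mul_of_pos_right _ hpos) h7
  have h8 : C ^ (Fintype.card α + Fintype.card β) ≤ 2 ^ (C * (Fintype.card α + Fintype.card β)) := by
    rw [pow_mul]
    exact Nat.pow_le_pow_left (Nat.lt_two_pow_self).le _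
  exact (Nat.pow_le_pow_iff_right (by norm_num)).1 (h5.trans h8)

end Pool.Agent.H891Z
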