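import Pool.Agent.H891Z.Real4

set_option autoImplicit false

namespace Pool.Agent.H891Z

open Finset

theorem not_sep_log :
    ¬ (∃ c : ℝ, ∀ (n : ℕ) (G : SimpleGraph (Fin n)) (d : ℕ),
      (∃ f : Fin d → Fin n → ℝ,
        ∀ a b x y : Fin n, G.Adj a b → G.Adj x y →
          a ≠ x → a ≠ y → b ≠ x → b ≠ y →
          ∃ i : Fin d,
            max (f i a) (f i b) < min (f i x) (f i y) ∨
            max (f i x) (f i y) < min (f i a) (f i b)) →
      Real.logb 2 (G.chromaticNumber.toNat : ℝ) - c ≤ (d : ℝ)) := by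
  rintro ⟨c, hc⟩
  obtain ⟨n, G, f, hf, hk⟩ := sep_chrom (2 ^ (⌈c⌉₊ + 4))
  have h1 := hc n G 4 ⟨f, hf⟩
  have h2 : ((2 : ℝ) ^ (⌈c⌉₊ + 4)) < (G.chromaticNumber.toNat : ℝ) := by exact_mod_cast hk
  have h3 := Real.logb_lt_logb (b := 2) (by norm_num) (by positivity) h2
  rw [Real.logb_pow, Real.logb_self_eq_one (by norm_num)] at h3
  have h4 := Nat.le_ceil c
  push_cast at h1 h3
  linarith

theorem not_box_sep :
    ¬ (∃ f : ℕ → ℕ, ∀ (V : Type) [Fintype V] (G : SimpleGraph V) (k : ℕ),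
      (∃ l r : G.edgeSet → Fin k → ℝ, (∀ e i, l e i ≤ r e i) ∧
        ∀ e₁ e₂ : G.edgeSet, e₁ ≠ e₂ →
          (G.lineGraph.Adj e₁ e₂ ↔ ∀ i, max (l e₁ i) (l e₂ i) ≤ min (r e₁ i) (r e₂ i))) →
      ∃ l r : V → Fin (f k) → ℝ, (∀ v i, l v i ≤ r v i) ∧
        ∀ u v : V, u ≠ v →
          (G.Adj u v ↔ ∀ i, max (l u i) (l v i) ≤ min (r u i) (r v i))) := by
  classical
  rintro ⟨f, hf⟩
  obtain ⟨D, hD⟩ := count_bound (Fin (f 4) ⊕ Fin (f 4))
  obtain ⟨S, hS⟩ := exists_sys (2 * (2 * D) + 1)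
  have := S.fin
  have := Fintype.ofFinite S.V
  obtain ⟨φ, hφ⟩ := S.sepBy
  obtain ⟨col, hcol⟩ := colour_of_sparse S.arc S.arc_ne (2 * D) (fun T => by
    have h1 := hD T T (univ.filter fun p : T × T => S.arc p.1 p.2) (fun F hF => by
      have hFa : ∀ x y : T, (x, y) ∈ F → S.arc x y := fun x y h => (mem_filter.1 (hF h)).2
      let H : SimpleGraph T :=
        { Adj := fun x y => (x, y) ∈ F ∨ (y, x) ∈ F
          symm := ⟨fun _ _ h => h.symm⟩
          loopless := ⟨fun x h => by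
            rcases h with h | h <;> exact S.arc_ne _ _ (hFa _ _ h) rfl⟩ }
      have hH : SepBy H (fun i x => φ i x) := hφ.of_map (fun x : T => (x : S.V))
        Subtype.val_injective (fun x y h => h.imp (hFa _ _) (hFa _ _))
      obtain ⟨l, r, hlr, hadj⟩ := hf T H 4 hH.boxes
      refine ⟨Sum.elim (fun i x => l x i) (fun i x => - r x i),
        Sum.elim (fun i y => r y i) (fun i y => - l y i), ?_⟩
      rintro ⟨x, y⟩ hp
      have hxy : S.arc x y := (mem_filter.1 hp).2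
      have hne : x ≠ y := fun e => S.arc_ne _ _ hxy (by rw [e])
      have h2 : (x, y) ∈ F ↔ H.Adj x y := by
        refine ⟨Or.inl, fun h => h.elim id fun h => ?_⟩
        exact absurd (S.anti _ _ (S.arc_le _ _ hxy) (S.arc_le _ _ (hFa _ _ h))) (S.arc_ne _ _ hxy)
      rw [h2, hadj x y hne, Sum.forall]
      simp only [Sum.elim_inl, Sum.elim_inr, neg_le_neg_iff, max_le_iff, le_min_iff]
      exact ⟨fun h => ⟨fun i => (h i).2.1, fun i => (h i).1.2⟩,
        fun h i => ⟨⟨hlr _ _, h.2 i⟩, ⟨h.1 i, hlr _ _⟩⟩⟩)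
    have h2 : ((T ×ˢ T).filter fun p => S.arc p.1 p.2).card ≤
        (univ.filter fun p : T × T => S.arc p.1 p.2).card := by
      refine card_le_card_of_surjOn (fun p => ((p.1 : S.V), (p.2 : S.V))) ?_
      rintro ⟨x, y⟩ hp
      have hp' := mem_filter.1 (mem_coe.1 hp)
      have hp2 := mem_product.1 hp'.1
      exact ⟨(⟨x, hp2.1⟩, ⟨y, hp2.2⟩), mem_coe.2 (mem_filter.2 ⟨mem_univ _, hp'.2⟩), rfl⟩
    rw [Fintype.card_coe] at h1
    calc _ ≤ _ := h2
      _ ≤ _ := h1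
      _ = _ := by ring)
  exact hS col hcol

/-- The partial order of a system. -/
@[reducible] def Sys.order (S : Sys) : PartialOrder S.V where
  le := S.le
  le_refl := S.le_refl
  le_trans := fun _ _ _ => S.le_trans
  le_antisymm := S.anti

theorem Sys.cov_iff (S : Sys) (x y : S.V) : @CovBy S.V S.order.toLT x y ↔ S.arc x y := by
  let _ := S.order
  constructor
  · intro h
    rcases S.gen x y h.le with e | ⟨z, hz, hzy⟩
    · exact absurd e h.ne
    · have hxz : x < z := lt_of_le_of_ne (S.arc_le _ _ hz) (S.arc_ne _ _ hz)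
      have hzy' : z ≤ y := hzy
      rcases hzy'.eq_or_lt with h3 | h3
      · exact h3 ▸ hz
      · exact absurd h3 (h.2 hxz)
  · intro h
    refine ⟨lt_of_le_of_ne (S.arc_le _ _ h) (S.arc_ne _ _ h), fun z h1 h2 => ?_⟩
    rcases S.cov x y z h h1.le h2.le with e | e
    · exact h1.ne e.symm
    · exact h2.ne e

theorem Sys.no_path (S : Sys) {x z y : S.V} (h : S.arc x y) (h1 : S.arc x z) (h2 : S.le z y) :
    z = y := by
  rcases S.cov x y z h (S.arc_le _ _ h1) h2 with e | e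
  · exact absurd e.symm (S.arc_ne _ _ h1)
  · exact e

theorem Sys.no_cyc (S : Sys) {x y : S.V} (h : S.arc x y) (h2 : S.le y x) : False :=
  S.arc_ne _ _ h (S.anti _ _ (S.arc_le _ _ h) h2)

theorem Sys.no3 (S : Sys) {a b c : S.V} (h1 : S.graph.Adj a b) (h2 : S.graph.Adj b c)
    (h3 : S.graph.Adj c a) : False := by
  have n1 := h1.ne
  have n2 := h2.ne
  have n3 := h3.ne
  have L := S.arc_le
  rcases h1 with h1 | h1 <;> rcases h2 with h2 | h2 <;> rcases h3 with h3 | h3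
  · exact S.no_cyc h1 (S.le_trans (L _ _ h2) (L _ _ h3))
  · exact n2 (S.no_path h3 h1 (L _ _ h2))
  · exact n1 (S.no_path h2 h3 (L _ _ h1))
  · exact n2 (S.no_path h1 h3 (L _ _ h2)).symm
  · exact n3 (S.no_path h1 h2 (L _ _ h3))
  · exact n3 (S.no_path h2 h1 (L _ _ h3)).symm
  · exact n1 (S.no_path h3 h2 (L _ _ h1)).symm
  · exact S.no_cyc h1 (S.le_trans (L _ _ h3) (L _ _ h2))

theorem Sys.common (S : Sys) {a b c d : S.V} (h1 : S.graph.Adj a b) (h2 : S.graph.Adj b c)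
    (h3 : S.graph.Adj c d) (h4 : S.arc a d) (hac : a ≠ c) (hbd : b ≠ d) : False := by
  have n1 := h1.ne
  have n2 := h2.ne
  have n3 := h3.ne
  have n4 := S.arc_ne _ _ h4
  have L := S.arc_le
  have T := @Sys.le_trans S
  rcases h1 with h1 | h1 <;> rcases h2 with h2 | h2 <;> rcases h3 with h3 | h3
  · exact hbd (S.no_path h4 h1 (T (L _ _ h2) (L _ _ h3)))
  · exact hbd (S.dia _ _ _ _ h1 h4 h2 h3)
  · rcases S.sep _ _ _ _ h1 h3 (L _ _ h4) (L _ _ h2) with e | e | e | e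
    exacts [hac e, n4 e, n2 e, hbd e]
  · exact hbd (S.no_path h1 h4 (T (L _ _ h3) (L _ _ h2))).symm
  · exact hac (S.dia _ _ _ _ h1 h2 h4 h3)
  · exact hac (S.no_path h2 h1 (T (L _ _ h4) (L _ _ h3)))
  · exact hbd (S.no_path h3 h2 (T (L _ _ h1) (L _ _ h4)))
  · exact S.no_cyc h4 (T (L _ _ h3) (T (L _ _ h2) (L _ _ h1)))

theorem Sys.no4 (S : Sys) {a b c d : S.V} (h1 : S.graph.Adj a b) (h2 : S.graph.Adj b c)
    (h3 : S.graph.Adj c d) (h4 : S.graph.Adj d a) (hac : a ≠ c) (hbd : b ≠ d) : False := by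
  rcases h4 with h4 | h4
  · exact S.common h3.symm h2.symm h1.symm h4 hbd.symm hac.symm
  · exact S.common h1 h2 h3 h4 hac hbd

theorem Sys.girth (S : Sys) : (5 : ℕ∞) ≤ S.graph.egirth := by
  rw [SimpleGraph.le_egirth]
  intro a w hw
  have h3 := hw.three_le_length
  by_contra hc
  have h5 : w.length < 5 := by exact_mod_cast not_le.1 hc
  match w, hw, h3, h5 with
  | .cons h1 (.cons h2 (.cons h3 .nil)), _, _, _ => exact S.no3 h1 h2 h3
  | .cons h1 (.cons h2 (.cons h3 (.cons h4 .nil))), hw, _, _ =>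
    have hn := hw.support_nodup
    simp only [SimpleGraph.Walk.support_cons, SimpleGraph.Walk.support_nil, List.tail_cons,
      List.nodup_cons, List.mem_cons, List.not_mem_nil, or_false, not_or] at hn
    exact S.no4 h1 h2 h3 h4 (fun e => hn.2.1.2 e.symm) hn.1.2.1
  | .nil, _, h3, _ => simp at h3
  | .cons _ .nil, _, h3, _ => simp at h3
  | .cons _ (.cons _ .nil), _, h3, _ => simp at h3
  | .cons _ (.cons _ (.cons _ (.cons _ (.cons _ _)))), _, _, h5 => simp at h5; omega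

theorem not_cover_girth :
    ¬ (∀ g d : ℕ, 5 ≤ g → 1 ≤ d →
      ∃ r : ℕ, ∀ (α : Type) [Fintype α] [PartialOrder α],
        Nonempty (α ↪o (Fin d → ℕ)) →
        (g : ℕ∞) ≤ (SimpleGraph.fromRel (fun x y : α => x ⋖ y)).egirth →
        (SimpleGraph.fromRel (fun x y : α => x ⋖ y)).Colorable r) := by
  intro h
  obtain ⟨r, hr⟩ := h 5 4 le_rfl (by norm_num)
  obtain ⟨S, hS⟩ := exists_sys r
  have := S.fin
  have := Fintype.ofFinite S.V
  obtain ⟨φ, hφ⟩ := S.realizer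
  let _ := S.order
  have e : SimpleGraph.fromRel (fun x y : S.V => x ⋖ y) = S.graph := by
    ext x y
    rw [SimpleGraph.fromRel_adj, S.cov_iff, S.cov_iff]
    exact ⟨fun h => h.2, fun h => ⟨h.ne, h⟩⟩
  have h1 := hr S.V ⟨OrderEmbedding.ofMapLEIff (fun x κ => φ κ x) fun x y => (hφ x y).symm⟩
  rw [e] at h1
  obtain ⟨col⟩ := h1 S.girth
  exact hS col fun x y hxy => col.valid (Or.inl hxy)

end Pool.Agent.H891Z
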