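import Pool.Agent.H891Z.Round
import Pool.Agent.H891Z.Count

set_option autoImplicit false

namespace Pool.Agent.H891Z

open Finset

theorem prefix_iff_lex {A : Type} [LinearOrder A] (s t : List A) :
    s <+: t ↔ ¬ t < s ∧ ¬ t.map OrderDual.toDual < s.map OrderDual.toDual := by
  induction s generalizing t with
  | nil => simp
  | cons a s ih =>
    cases t with
    | nil => simp
    | cons b t =>
      rw [List.cons_prefix_cons, List.map_cons, List.map_cons, List.cons_lt_cons_iff,
        List.cons_lt_cons_iff, ih]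
      simp only [OrderDual.toDual_lt_toDual, EmbeddingLike.apply_eq_iff_eq]
      constructor
      · rintro ⟨rfl, h1, h2⟩
        simp only [lt_irrefl, true_and, false_or]
        exact ⟨h1, h2⟩
      · rintro ⟨h1, h2⟩
        rw [not_or] at h1 h2
        have e : b = a := le_antisymm (not_lt.1 h2.1) (not_lt.1 h1.1)
        exact ⟨e.symm, fun h => h1.2 ⟨e, h⟩, fun h => h2.2 ⟨e, h⟩⟩

theorem exists_rank {V L : Type} [Finite V] [LinearOrder L] (α : V → L) :
    ∃ φ : V → ℕ, ∀ x y, φ x ≤ φ y ↔ ¬ α x < α y := by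
  classical
  have := Fintype.ofFinite V
  refine ⟨fun x => (univ.filter fun z => α x < α z).card, fun x y => ⟨fun h => ?_, fun h => ?_⟩⟩
  · intro hlt
    refine absurd h (not_le.2 (card_lt_card ⟨fun z hz => ?_, fun hs => ?_⟩))
    · simp only [mem_filter, mem_univ, true_and] at hz ⊢
      exact hlt.trans hz
    · have := hs (mem_filter.2 ⟨mem_univ y, hlt⟩)
      simp at this
  · refine card_le_card fun z hz => ?_
    simp only [mem_filter, mem_univ, true_and] at hz ⊢
    exact (not_lt.1 h).trans_lt hz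

theorem Sys.realizer (S : Sys) : ∃ φ : Fin 4 → S.V → ℕ, ∀ x y, S.le x y ↔ ∀ κ, φ κ x ≤ φ κ y := by
  have := S.fin
  let _ : LinearOrder S.A := IsWellOrder.linearOrder WellOrderingRel
  obtain ⟨a, ha⟩ := exists_rank S.p
  obtain ⟨b, hb⟩ := exists_rank fun x => (S.p x).map OrderDual.toDual
  obtain ⟨c, hc⟩ := exists_rank S.r
  obtain ⟨d, hd⟩ := exists_rank fun x => (S.r x).map OrderDual.toDual
  refine ⟨![a, b, c, d], fun x y => ?_⟩
  rw [S.le_iff, prefix_iff_lex, prefix_iff_lex, Fin.forall_fin_succ, Fin.forall_fin_succ,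
    Fin.forall_fin_succ, Fin.forall_fin_succ]
  simp only [← ha, ← hb, ← hc, ← hd]
  simp [and_assoc]

/-- The underlying simple graph. -/
def Sys.graph (S : Sys) : SimpleGraph S.V where
  Adj x y := S.arc x y ∨ S.arc y x
  symm := ⟨fun _ _ h => h.symm⟩
  loopless := ⟨fun x h => by rcases h with h | h <;> exact S.arc_ne x x h rfl⟩

/-- Pairwise suitable real maps. -/
def SepBy {V : Type} {d : ℕ} (G : SimpleGraph V) (f : Fin d → V → ℝ) : Prop :=
  ∀ a b x y : V, G.Adj a b → G.Adj x y → a ≠ x → a ≠ y → b ≠ x → b ≠ y →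
    ∃ i : Fin d, max (f i a) (f i b) < min (f i x) (f i y) ∨
      max (f i x) (f i y) < min (f i a) (f i b)

theorem Sys.sepBy (S : Sys) : ∃ f : Fin 4 → S.V → ℝ, SepBy S.graph f := by
  obtain ⟨φ, hφ⟩ := S.realizer
  refine ⟨fun κ x => φ κ x, ?_⟩
  have key : ∀ a b x y, S.arc a b → S.arc x y → a ≠ x → a ≠ y → b ≠ x → b ≠ y →
      ∃ i : Fin 4, max (φ i a : ℝ) (φ i b) < min (φ i x : ℝ) (φ i y) ∨
        max (φ i x : ℝ) (φ i y) < min (φ i a : ℝ) (φ i b) := by
    intro a b x y hab hxy h1 h2 h3 h4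
    have e1 := (hφ _ _).1 (S.arc_le _ _ hab)
    have e2 := (hφ _ _).1 (S.arc_le _ _ hxy)
    have : ¬ S.le a y ∨ ¬ S.le x b := by
      by_contra hc
      push Not at hc
      rcases S.sep _ _ _ _ hab hxy hc.1 hc.2 with h | h | h | h <;> contradiction
    rcases this with h | h
    · rw [hφ] at h
      push Not at h
      obtain ⟨i, hi⟩ := h
      refine ⟨i, Or.inr ?_⟩
      rw [max_eq_right (by exact_mod_cast e2 i), min_eq_left (by exact_mod_cast e1 i)]
      exact_mod_cast hi
    · rw [hφ] at h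
      push Not at h
      obtain ⟨i, hi⟩ := h
      refine ⟨i, Or.inl ?_⟩
      rw [max_eq_right (by exact_mod_cast e1 i), min_eq_left (by exact_mod_cast e2 i)]
      exact_mod_cast hi
  intro a b x y hab hxy h1 h2 h3 h4
  rcases hab with hab | hab <;> rcases hxy with hxy | hxy
  · exact key a b x y hab hxy h1 h2 h3 h4
  · simpa only [max_comm, min_comm] using key a b y x hab hxy h2 h1 h4 h3
  · simpa only [max_comm, min_comm] using key b a x y hab hxy h3 h4 h1 h2
  · simpa only [max_comm, min_comm] using key b a y x hab hxy h4 h3 h2 h1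

theorem SepBy.of_map {V W : Type} {d : ℕ} {G : SimpleGraph V} {H : SimpleGraph W}
    {f : Fin d → V → ℝ} (h : SepBy G f) (e : W → V) (he : Function.Injective e)
    (hH : ∀ x y, H.Adj x y → G.Adj (e x) (e y)) : SepBy H (fun i x => f i (e x)) :=
  fun _ _ _ _ hab hxy h1 h2 h3 h4 =>
    h _ _ _ _ (hH _ _ hab) (hH _ _ hxy) (he.ne h1) (he.ne h2) (he.ne h3) (he.ne h4)

theorem sep_chrom (k : ℕ) : ∃ (n : ℕ) (G : SimpleGraph (Fin n)) (f : Fin 4 → Fin n → ℝ),
    SepBy G f ∧ k < G.chromaticNumber.toNat := by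
  obtain ⟨S, hS⟩ := exists_sys k
  have := S.fin
  obtain ⟨f, hf⟩ := S.sepBy
  let e := Finite.equivFin S.V
  refine ⟨_, S.graph.comap e.symm, _, hf.of_map e.symm e.symm.injective fun _ _ h => h, ?_⟩
  by_contra hc
  obtain ⟨col⟩ := (SimpleGraph.colorable_chromaticNumber_of_fintype
    (S.graph.comap e.symm)).mono (not_lt.1 hc)
  refine hS (fun x => col (e x)) fun x y hxy => col.valid ?_
  have h1 : S.graph.Adj x y := Or.inl hxy
  simpa only [SimpleGraph.comap_adj, Equiv.symm_apply_apply] using h1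

theorem SepBy.boxes {V : Type} {d : ℕ} {G : SimpleGraph V} {f : Fin d → V → ℝ} (h : SepBy G f) :
    ∃ l r : G.edgeSet → Fin d → ℝ, (∀ e i, l e i ≤ r e i) ∧
      ∀ e₁ e₂ : G.edgeSet, e₁ ≠ e₂ →
        (G.lineGraph.Adj e₁ e₂ ↔ ∀ i, max (l e₁ i) (l e₂ i) ≤ min (r e₁ i) (r e₂ i)) := by
  refine ⟨fun e i => Sym2.lift ⟨fun a b => min (f i a) (f i b), fun a b => min_comm _ _⟩ e.1,
    fun e i => Sym2.lift ⟨fun a b => max (f i a) (f i b), fun a b => max_comm _ _⟩ e.1, ?_, ?_⟩
  · rintro ⟨e, he⟩ i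
    induction e using Sym2.ind with
    | _ a b => simp
  · rintro ⟨e₁, h₁⟩ ⟨e₂, h₂⟩ hne
    induction e₁ using Sym2.ind with
    | _ a b =>
    induction e₂ using Sym2.ind with
    | _ x y =>
    rw [SimpleGraph.lineGraph_adj_iff_exists]
    simp only [Sym2.lift_mk, Sym2.mem_iff]
    constructor
    · rintro ⟨-, v, hv1, hv2⟩ i
      have p1 : min (f i a) (f i b) ≤ f i v ∧ f i v ≤ max (f i a) (f i b) := by
        rcases hv1 with rfl | rfl <;> simp
      have p2 : min (f i x) (f i y) ≤ f i v ∧ f i v ≤ max (f i x) (f i y) := by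
        rcases hv2 with rfl | rfl <;> simp
      exact (max_le p1.1 p2.1).trans (le_min p1.2 p2.2)
    · intro hall
      refine ⟨hne, ?_⟩
      by_contra hc
      push Not at hc
      obtain ⟨i, hi⟩ := h a b x y h₁ h₂ (hc a (Or.inl rfl)).1 (hc a (Or.inl rfl)).2
        (hc b (Or.inr rfl)).1 (hc b (Or.inr rfl)).2
      have := hall i
      rw [max_le_iff, le_min_iff, le_min_iff] at this
      rcases hi with hi | hi
      · exact absurd hi (not_lt.2 this.2.1)
      · exact absurd hi (not_lt.2 this.1.2)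

theorem colour_of_sparse {V : Type} [Fintype V] [DecidableEq V] (A : V → V → Prop)
    [DecidableRel A] (hA : ∀ x y, A x y → x ≠ y) (m : ℕ)
    (h : ∀ T : Finset V, ((T ×ˢ T).filter fun p => A p.1 p.2).card ≤ m * T.card) :
    ∃ col : V → Fin (2 * m + 1), ∀ x y, A x y → col x ≠ col y := by
  suffices H : ∀ T : Finset V, ∃ col : V → Fin (2 * m + 1), ∀ x ∈ T, ∀ y ∈ T, A x y →
      col x ≠ col y by
    obtain ⟨col, hc⟩ := H univ
    exact ⟨col, fun x y => hc x (mem_univ _) y (mem_univ _)⟩
  intro T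
  induction T using Finset.strongInduction with
  | H T ih =>
    rcases T.eq_empty_or_nonempty with rfl | hT
    · exact ⟨fun _ => 0, by simp⟩
    have hsum : ∑ v ∈ T, ((T.filter fun w => A v w).card + (T.filter fun w => A w v).card) ≤
        ∑ _v ∈ T, 2 * m := by
      have e1 : ∑ v ∈ T, (T.filter fun w => A v w).card =
          ((T ×ˢ T).filter fun p => A p.1 p.2).card := by
        simp only [card_filter]
        rw [sum_product]
      have e2 : ∑ v ∈ T, (T.filter fun w => A w v).card =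
          ((T ×ˢ T).filter fun p => A p.1 p.2).card := by
        simp only [card_filter]
        rw [sum_product, sum_comm]
      rw [sum_add_distrib, e1, e2, sum_const, smul_eq_mul]
      have := h T
      nlinarith
    obtain ⟨v, hv, hdeg⟩ := exists_le_of_sum_le hT hsum
    obtain ⟨col, hcol⟩ := ih (T.erase v) (erase_ssubset hv)
    have hlt : (((T.filter fun w => A v w) ∪ (T.filter fun w => A w v)).image col).card <
        (univ : Finset (Fin (2 * m + 1))).card := by
      rw [card_univ, Fintype.card_fin]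
      exact Nat.lt_succ_of_le (card_image_le.trans ((card_union_le _ _).trans hdeg))
    obtain ⟨c, -, hc⟩ := exists_mem_notMem_of_card_lt_card hlt
    refine ⟨Function.update col v c, fun x hx y hy hxy => ?_⟩
    by_cases h1 : x = v
    · subst h1
      rw [Function.update_self, Function.update_of_ne (hA _ _ hxy).symm]
      intro e
      exact hc (mem_image.2 ⟨y, mem_union_left _ (mem_filter.2 ⟨hy, hxy⟩), e.symm⟩)
    · by_cases h2 : y = v
      · subst h2
        rw [Function.update_self, Function.update_of_ne h1]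
        intro e
        exact hc (mem_image.2 ⟨x, mem_union_right _ (mem_filter.2 ⟨hx, hxy⟩), e⟩)
      · rw [Function.update_of_ne h1, Function.update_of_ne h2]
        exact hcol x (mem_erase.2 ⟨h1, hx⟩) y (mem_erase.2 ⟨h2, hy⟩) hxy

end Pool.Agent.H891Z
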