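import Pool.Agent.H891Z.Step

set_option autoImplicit false

namespace Pool.Agent.H891Z

namespace Dat
variable (X : Dat)

theorem J_ext {a b : X.J} (h1 : a.1.1 = b.1.1) (h2 : a.1.2.1 = b.1.2.1) (h3 : a.1.2.2 = b.1.2.2) :
    a = b := Subtype.ext (Prod.ext h1 (Prod.ext h2 h3))

theorem uniq {a b : X.J} {i : List X.G.V} {w w' : X.G.V} (h : a.1.1 = b.1.1)
    (h1 : a.1.2.1 ++ [w] <+: i) (h2 : b.1.2.1 ++ [w'] <+: i) : a.1.2.1 = b.1.2.1 ∧ w = w' :=
  concat_prefix_unique h1 h2 (by rw [a.2.2, b.2.2, h])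

theorem arc_le (x y : X.W) (h : X.arc x y) : X.le x y := by
  rcases x with a | a <;> rcases y with b | b <;> simp only [arc, le] at h ⊢
  · exact ⟨h.1, X.S.arc_le _ _ h.2⟩
  · exact ⟨h.1, _, h.2, X.G.le_refl _⟩
  · exact ⟨h.1, h.2.1, X.G.arc_le _ _ h.2.2⟩

theorem arc_ne (x y : X.W) (h : X.arc x y) : x ≠ y := by
  rintro rfl
  rcases x with a | a <;> simp only [arc] at h
  · exact X.S.arc_ne _ _ h.2 rfl
  · exact X.G.arc_ne _ _ h.2.2 rfl

theorem anti (x y : X.W) (h : X.le x y) (h' : X.le y x) : x = y := by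
  rcases x with a | a <;> rcases y with b | b <;> simp only [le] at h h'
  · rw [Prod.ext h.1 (X.S.anti _ _ h.2 h'.2)]
  · rw [X.J_ext h.1 h.2.1 (X.G.anti _ _ h.2.2 h'.2.2)]

theorem cov (x y z : X.W) (h : X.arc x y) (h1 : X.le x z) (h2 : X.le z y) : z = x ∨ z = y := by
  rcases x with a | a <;> rcases y with b | b <;> rcases z with c | c <;>
    simp only [arc, le] at h h1 h2
  · rcases X.S.cov _ _ _ h.2 h1.2 h2.2 with e | e
    · left; rw [Prod.ext h1.1.symm e]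
    · right; rw [Prod.ext h2.1 e]
  · left; rw [Prod.ext h1.1.symm (h2.1.trans h.1.symm)]
  · right
    obtain ⟨e, w, hw, hle⟩ := h1
    have := X.uniq (e.symm.trans h.1) hw h.2
    rw [X.J_ext h2.1 h2.2.1 (X.G.anti _ _ h2.2.2 (this.2 ▸ hle))]
  · rcases X.G.cov _ _ _ h.2.2 h1.2.2 h2.2.2 with e | e
    · left; rw [X.J_ext h1.1.symm h1.2.1.symm e]
    · right; rw [X.J_ext h2.1 h2.2.1 e]

theorem sep (x y x' y' : X.W) (h : X.arc x y) (h' : X.arc x' y') (h1 : X.le x y')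
    (h2 : X.le x' y) : x = x' ∨ x = y' ∨ y = x' ∨ y = y' := by
  rcases x with a | a <;> rcases y with b | b <;> rcases x' with a' | a' <;>
    rcases y' with b' | b' <;> simp only [arc, le] at h h' h1 h2
  · rcases X.S.sep _ _ _ _ h.2 h'.2 h1.2 h2.2 with e | e | e | e
    · left; rw [Prod.ext (h1.1.trans h'.1.symm) e]
    · right; left; rw [Prod.ext h1.1 e]
    · right; right; left; rw [Prod.ext h2.1.symm e]
    · right; right; right; rw [Prod.ext (h.1.symm.trans h1.1) e]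
  · left; rw [Prod.ext (h.1.trans h2.1.symm) (h1.1.trans h'.1.symm)]
  · left; rw [Prod.ext (h1.1.trans h'.1.symm) (h.1.trans h2.1.symm)]
  · right; right; right
    obtain ⟨e, w, hw, hle⟩ := h1
    obtain ⟨e', w', hw', hle'⟩ := h2
    have e1 : b.1.1 = b'.1.1 := h.1.symm.trans e
    have u1 := X.uniq e1 h.2 hw
    have u2 := X.uniq e1 hw' h'.2
    rw [X.J_ext e1 u1.1 (X.G.anti _ _ (u1.2 ▸ hle) (u2.2 ▸ hle'))]
  · obtain ⟨e, w, hw, hle⟩ := h1
    have e1 : b.1.1 = b'.1.1 := h.1.symm.trans e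
    have u1 := X.uniq e1 h.2 hw
    rcases X.G.cov _ _ _ h'.2.2 h2.2.2 (u1.2 ▸ hle) with e2 | e2
    · right; right; left; rw [X.J_ext h2.1.symm h2.2.1.symm e2]
    · right; right; right; rw [X.J_ext e1 u1.1 e2]
  · obtain ⟨e, w, hw, hle⟩ := h2
    have e1 : b'.1.1 = b.1.1 := h'.1.symm.trans e
    have u1 := X.uniq e1 h'.2 hw
    rcases X.G.cov _ _ _ h.2.2 h1.2.2 (u1.2 ▸ hle) with e2 | e2
    · right; left; rw [X.J_ext h1.1 h1.2.1 e2.symm]
    · right; right; right; rw [X.J_ext e1.symm u1.1.symm e2.symm]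
  · rcases X.G.sep _ _ _ _ h.2.2 h'.2.2 h1.2.2 h2.2.2 with e | e | e | e
    · left; rw [X.J_ext (h1.1.trans h'.1.symm) (h1.2.1.trans h'.2.1.symm) e]
    · right; left; rw [X.J_ext h1.1 h1.2.1 e]
    · right; right; left; rw [X.J_ext h2.1.symm h2.2.1.symm e]
    · right; right; right; rw [X.J_ext (h.1.symm.trans h1.1) (h.2.1.symm.trans h1.2.1) e]

theorem gen (x y : X.W) (h : X.le x y) : x = y ∨ ∃ z, X.arc x z ∧ X.le z y := by
  rcases x with a | a <;> rcases y with b | b <;> simp only [le] at h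
  · rcases X.S.gen _ _ h.2 with e | ⟨z, h1, h2⟩
    · left; rw [Prod.ext h.1 e]
    · right; exact ⟨.inl (a.1, z), ⟨rfl, h1⟩, ⟨h.1, h2⟩⟩
  · right
    obtain ⟨e, w, hw, hle⟩ := h
    exact ⟨.inr ⟨(b.1.1, b.1.2.1, w), b.2⟩, ⟨e, hw⟩, ⟨rfl, rfl, hle⟩⟩
  · rcases X.G.gen _ _ h.2.2 with e | ⟨z, h1, h2⟩
    · left; rw [X.J_ext h.1 h.2.1 e]
    · right; exact ⟨.inr ⟨(a.1.1, a.1.2.1, z), a.2⟩, ⟨rfl, rfl, h1⟩, ⟨h.1, h.2.1, h2⟩⟩

theorem no_in {a b : X.I × X.S.V} {c : X.J} (h : X.arc (.inl a) (.inl b))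
    (h' : X.arc (.inl b) (.inr c)) : False := by
  simp only [arc] at h h'
  have hp : X.pr b.2 := h'.1 ▸ c.2.1
  exact X.S.arc_ne _ _ h.2 (X.probe_min hp (X.S.arc_le _ _ h.2))

theorem dia (x a b y : X.W) (h1 : X.arc x a) (h2 : X.arc x b) (h3 : X.arc a y) (h4 : X.arc b y) :
    a = b := by
  rcases x with x | x <;> rcases a with a | a <;> rcases b with b | b <;> rcases y with y | y
  all_goals first
    | exact absurd h1 id
    | exact absurd h2 id
    | exact absurd h3 id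
    | exact absurd h4 id
    | exact (X.no_in h1 h3).elim
    | exact (X.no_in h2 h4).elim
    | skip
  all_goals simp only [arc] at h1 h2 h3 h4
  · rw [Prod.ext (h1.1.symm.trans h2.1) (X.S.dia _ _ _ _ h1.2 h2.2 h3.2 h4.2)]
  · have e1 : a.1.1 = b.1.1 := h1.1.symm.trans h2.1
    have u := X.uniq e1 h1.2 h2.2
    rw [X.J_ext e1 u.1 u.2]
  · rw [X.J_ext (h1.1.symm.trans h2.1) (h1.2.1.symm.trans h2.2.1)
      (X.G.dia _ _ _ _ h1.2.2 h2.2.2 h3.2.2 h4.2.2)]

/-- The new system. -/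
noncomputable def next : Sys where
  V := X.W
  A := X.B
  fin := X.finW
  ne := X.neW
  arc := X.arc
  le := X.le
  p := X.p
  r := X.r
  le_iff := X.le_iff
  arc_le := X.arc_le
  arc_ne := X.arc_ne
  anti := X.anti
  cov := X.cov
  sep := X.sep
  gen := X.gen
  dia := X.dia

end Dat

/-- Proper colourings of a system. -/
def Sys.Proper (S : Sys) {C : Type} (col : S.V → C) : Prop := ∀ x y, S.arc x y → col x ≠ col y

theorem exists_branch {γ : Type} (P : List γ → γ → Prop) (hP : ∀ j, ∃ u, P j u) (n : ℕ) :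
    ∃ i : List γ, i.length = n ∧ ∀ j u, j ++ [u] <+: i → P j u := by
  induction n with
  | zero => exact ⟨[], rfl, fun j u h => by simp at h⟩
  | succ n ih =>
    obtain ⟨i, hi, h⟩ := ih
    obtain ⟨u0, hu0⟩ := hP i
    refine ⟨i ++ [u0], by simp [hi], fun j u hj => ?_⟩
    rcases List.prefix_concat_iff.1 hj with e | e
    · have e1 := List.append_inj_left' e rfl
      have e2 : u = u0 := by simpa using List.append_inj_right' e rfl
      rw [e1, e2]; exact hu0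
    · exact h j u e

theorem round (G : Sys) {C : Type} (hG : ∀ col : G.V → C, G.Proper col → Function.Surjective col)
    (cs : List C) : ∃ (S : Sys) (pr : S.V → Prop), (∀ t v, pr t → S.r t <+: S.r v → v = t) ∧
      ∀ col : S.V → C, S.Proper col → ∃ t, pr t ∧ ∀ c ∈ cs, ∃ w, S.arc t w ∧ col w = c := by
  induction cs with
  | nil => exact ⟨Sys.point, fun _ => True, fun _ _ _ _ => rfl, fun _ _ => ⟨(), trivial, by simp⟩⟩
  | cons c cs ih =>
    obtain ⟨S, pr, hpr, hS⟩ := ih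
    have := S.fin
    let X : Dat := ⟨G, S, pr, hpr, Nat.card S.V, fun v => (Finite.equivFin S.V v : ℕ),
      fun a b h => (Finite.equivFin S.V).injective (Fin.ext h), fun v => (Finite.equivFin S.V v).2⟩
    refine ⟨X.next, X.pr', fun t v ht h => X.hpr' t v ht h, fun col hcol => ?_⟩
    let P : List G.V → G.V → Prop := fun j u => ∀ (t : S.V) (h : pr t ∧ j.length = X.idx t),
      col (Sum.inr ⟨(t, j, u), h⟩) = c
    have hP : ∀ j, ∃ u, P j u := by
      intro j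
      by_cases hj : ∃ t, pr t ∧ j.length = X.idx t
      · obtain ⟨t, ht⟩ := hj
        obtain ⟨u, hu⟩ := hG (fun u => col (Sum.inr ⟨(t, j, u), ht⟩))
          (fun x y hxy => hcol _ _ ⟨rfl, rfl, hxy⟩) c
        refine ⟨u, fun t' ht' => ?_⟩
        have e : t' = t := X.hinj (ht'.2.symm.trans ht.2)
        subst e
        exact hu
      · obtain ⟨u⟩ := G.ne
        exact ⟨u, fun t ht => absurd ⟨t, ht⟩ hj⟩
    obtain ⟨i, hi, hb⟩ := exists_branch P hP X.L
    obtain ⟨t, ht, hc⟩ := hS (fun v => col (Sum.inl (⟨i, hi⟩, v)))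
      (fun x y hxy => hcol _ _ ⟨rfl, hxy⟩)
    refine ⟨Sum.inl (⟨i, hi⟩, t), ht, fun c' hc' => ?_⟩
    rcases List.mem_cons.1 hc' with rfl | hc'
    · have hlt : X.idx t < i.length := hi ▸ X.hlt t
      have hl : (i.take (X.idx t)).length = X.idx t := by simp [hlt.le]
      obtain ⟨w, hw⟩ := exists_concat_prefix (List.take_prefix (X.idx t) i) (by rw [hl]; exact hlt)
      exact ⟨Sum.inr ⟨(t, i.take (X.idx t), w), ht, hl⟩, ⟨rfl, hw⟩, hb _ _ hw t ⟨ht, hl⟩⟩
    · obtain ⟨w, hw, hcw⟩ := hc c' hc'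
      exact ⟨Sum.inl (⟨i, hi⟩, w), ⟨rfl, hw⟩, hcw⟩

theorem exists_sys (k : ℕ) : ∃ S : Sys, ∀ col : S.V → Fin k, ¬ S.Proper col := by
  induction k with
  | zero => exact ⟨Sys.point, fun col _ => (col ()).elim0⟩
  | succ k ih =>
    obtain ⟨G, hG⟩ := ih
    obtain ⟨S, pr, -, hS⟩ := round G (C := Fin (k + 1)) (fun col hcol c => by
      by_contra hc
      have hne : ∀ x, col x ≠ c := fun x h => hc ⟨x, h⟩
      refine hG (fun x => (finSuccAboveEquiv c).symm ⟨col x, hne x⟩) fun x y hxy h => ?_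
      exact hcol x y hxy (congrArg Subtype.val ((finSuccAboveEquiv c).symm.injective h)))
      (List.finRange (k + 1))
    refine ⟨S, fun col hcol => ?_⟩
    obtain ⟨t, -, ht⟩ := hS col hcol
    obtain ⟨w, hw, hc⟩ := ht (col t) (List.mem_finRange _)
    exact hcol t w hw hc.symm

end Pool.Agent.H891Z
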