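import Pool.Agent.H891Z.Sys

set_option autoImplicit false

namespace Pool.Agent.H891Z

open Al

/-- Data for one round of the construction. -/
structure Dat where
  G : Sys
  S : Sys
  pr : S.V → Prop
  hpr : ∀ t v, pr t → S.r t <+: S.r v → v = t
  L : ℕ
  idx : S.V → ℕ
  hinj : Function.Injective idx
  hlt : ∀ v, idx v < L

namespace Dat
variable (X : Dat)

abbrev I : Type := {i : List X.G.V // i.length = X.L}
abbrev J : Type := {q : X.S.V × List X.G.V × X.G.V // X.pr q.1 ∧ q.2.1.length = X.idx q.1}
abbrev W : Type := (X.I × X.S.V) ⊕ X.J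
abbrev B : Type := Al X.S.A X.G.A X.G.V

def pick (i : X.I) (v : X.S.V) : X.G.V := i.1[X.idx v]'(by rw [i.2]; exact X.hlt v)

theorem pick_eq (i : X.I) (v : X.S.V) {j : List X.G.V} {w : X.G.V} (h : j ++ [w] <+: i.1)
    (hl : j.length = X.idx v) : w = X.pick i v := by
  obtain ⟨i, hi⟩ := i
  obtain ⟨t, rfl⟩ := h
  simp [pick, ← hl]

def arc : X.W → X.W → Prop
  | .inl a, .inl b => a.1 = b.1 ∧ X.S.arc a.2 b.2
  | .inr a, .inr b => a.1.1 = b.1.1 ∧ a.1.2.1 = b.1.2.1 ∧ X.G.arc a.1.2.2 b.1.2.2
  | .inl a, .inr b => a.2 = b.1.1 ∧ b.1.2.1 ++ [b.1.2.2] <+: a.1.1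
  | .inr _, .inl _ => False

def le : X.W → X.W → Prop
  | .inl a, .inl b => a.1 = b.1 ∧ X.S.le a.2 b.2
  | .inr a, .inr b => a.1.1 = b.1.1 ∧ a.1.2.1 = b.1.2.1 ∧ X.G.le a.1.2.2 b.1.2.2
  | .inl a, .inr b => a.2 = b.1.1 ∧ ∃ w, b.1.2.1 ++ [w] <+: a.1.1 ∧ X.G.le w b.1.2.2
  | .inr _, .inl _ => False

def p : X.W → List X.B
  | .inl a => code X.G.p a.1.1 ++ (X.S.p a.2).map old
  | .inr b => code X.G.p b.1.2.1 ++ (X.G.p b.1.2.2).map gr

open Classical in
noncomputable def r : X.W → List X.B
  | .inl a => (X.S.r a.2).map old ++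
      (if X.pr a.2 then (X.G.r (X.pick a.1 a.2)).map gr ++ [idn a.1.1] else [])
  | .inr b => (X.S.r b.1.1).map old ++ (X.G.r b.1.2.2).map gr

def pr' : X.W → Prop
  | .inl a => X.pr a.2
  | .inr _ => False

theorem old_r_inl (a : X.I × X.S.V) : (X.r (.inl a)).filterMap oldP = X.S.r a.2 := by
  simp only [r]
  split_ifs <;> simp [List.filterMap_append, oldP]

theorem old_r_inr (b : X.J) : (X.r (.inr b)).filterMap oldP = X.S.r b.1.1 := by
  simp [r, List.filterMap_append, oldP]

theorem st_p_inl (a : X.I × X.S.V) : (X.p (.inl a)).filterMap stP = a.1.1 := by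
  rw [p, List.filterMap_append, st_code, st_old, List.append_nil]

theorem st_p_inr (b : X.J) : (X.p (.inr b)).filterMap stP = b.1.2.1 := by
  rw [p, List.filterMap_append, st_code, st_gr, List.append_nil]

theorem probe_min {t v : X.S.V} (ht : X.pr t) (h : X.S.le v t) : v = t :=
  X.hpr t v ht ((X.S.le_iff v t).1 h).2

theorem le_iff (x y : X.W) : X.le x y ↔ X.p y <+: X.p x ∧ X.r y <+: X.r x := by
  rcases x with ⟨i, v⟩ | ⟨⟨t, j, u⟩, ht, hj⟩ <;> rcases y with ⟨i', v'⟩ | ⟨⟨t', j', u'⟩, ht', hj'⟩
  · simp only [le]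
    constructor
    · rintro ⟨rfl, h⟩
      have h' := (X.S.le_iff v v').1 h
      refine ⟨(List.prefix_append_right_inj _).2 (h'.1.map _), ?_⟩
      by_cases hv : X.pr v'
      · rw [X.probe_min hv h]
      · simp only [r, hv, if_false, List.append_nil]
        exact (h'.2.map _).trans (List.prefix_append _ _)
    · rintro ⟨h1, h2⟩
      have h3 := h1.filterMap stP
      rw [st_p_inl, st_p_inl] at h3
      have e : i' = i := Subtype.ext (h3.eq_of_length (by rw [i.2, i'.2]))
      subst e
      refine ⟨rfl, (X.S.le_iff v v').2 ⟨?_, ?_⟩⟩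
      · have h4 := ((List.prefix_append_right_inj _).1 h1).filterMap oldP
        simpa [oldP] using h4
      · have h4 := h2.filterMap oldP
        rwa [old_r_inl, old_r_inl] at h4
  · simp only [le]
    simp only at ht' hj'
    constructor
    · rintro ⟨rfl, w, hw, h⟩
      have h' := (X.G.le_iff w u').1 h
      have e := X.pick_eq i v hw hj'
      constructor
      · obtain ⟨s, hs⟩ := hw
        simp only [p, ← hs, code_append, List.append_assoc]
        refine (List.prefix_append_right_inj _).2 ?_
        simp only [code, List.flatMap_cons, List.flatMap_nil, List.append_nil, List.append_assoc]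
        exact (h'.1.map _).trans (List.prefix_append _ _)
      · simp only [r, ht', if_true, ← e]
        refine (List.prefix_append_right_inj _).2 ?_
        exact (h'.2.map _).trans (List.prefix_append _ _)
    · rintro ⟨h1, h2⟩
      have h3 := h1.filterMap stP
      rw [st_p_inl, st_p_inr] at h3
      have h4 := h2.filterMap oldP
      rw [old_r_inl, old_r_inr] at h4
      have e : v = t' := X.hpr t' v ht' h4
      subst e
      obtain ⟨w, hw⟩ := exists_concat_prefix h3 (by
        simp only [hj', i.2]; exact X.hlt v)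
      have e := X.pick_eq i v hw hj'
      refine ⟨rfl, w, hw, (X.G.le_iff w u').2 ⟨?_, ?_⟩⟩
      · obtain ⟨s, hs⟩ := hw
        simp only [p] at h1
        rw [← hs] at h1
        simp only [code_append, List.append_assoc] at h1
        have h5 := (List.prefix_append_right_inj _).1 h1
        simp only [code, List.flatMap_cons, List.flatMap_nil, List.append_nil, List.append_assoc,
          List.singleton_append] at h5
        exact gr_prefix _ _ _ _ h5
      · simp only [r, ht', if_true, ← e] at h2
        have h5 := ((List.prefix_append_right_inj _).1 h2).filterMap grP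
        simpa [List.filterMap_append, grP] using h5
  · simp only [le, false_iff, not_and]
    simp only at ht hj
    intro h1
    have h3 := h1.filterMap stP
    rw [st_p_inl, st_p_inr] at h3
    have h4 := h3.length_le
    have := X.hlt t
    simp only [i'.2, hj] at h4
    omega
  · simp only [le]
    simp only at ht hj ht' hj'
    constructor
    · rintro ⟨rfl, rfl, h⟩
      have h' := (X.G.le_iff u u').1 h
      exact ⟨(List.prefix_append_right_inj _).2 (h'.1.map _),
        (List.prefix_append_right_inj _).2 (h'.2.map _)⟩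
    · rintro ⟨h1, h2⟩
      have h3 := h1.filterMap stP
      rw [st_p_inr, st_p_inr] at h3
      have h4 := h2.filterMap oldP
      rw [old_r_inr, old_r_inr] at h4
      have e : t = t' := X.hpr t' t ht' h4
      subst e
      have e : j' = j := h3.eq_of_length (by simp only [hj, hj'])
      subst e
      refine ⟨rfl, rfl, (X.G.le_iff u u').2 ⟨?_, ?_⟩⟩
      · have h5 := ((List.prefix_append_right_inj _).1 h1).filterMap grP
        simpa [grP] using h5
      · have h5 := ((List.prefix_append_right_inj _).1 h2).filterMap grP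
        simpa [grP] using h5

theorem hpr' (x y : X.W) (hx : X.pr' x) (h : X.r x <+: X.r y) : y = x := by
  rcases x with ⟨i, v⟩ | x
  · simp only [pr'] at hx
    have h1 := h.filterMap idP
    have h2 := h.filterMap oldP
    rcases y with ⟨i', v'⟩ | y
    · rw [old_r_inl, old_r_inl] at h2
      have e : v' = v := X.hpr v v' hx h2
      subst e
      simp only [r, hx, if_true, List.filterMap_append, id_old, id_gr, List.nil_append] at h1
      simp only [List.filterMap_cons, idP, List.filterMap_nil, List.cons_prefix_cons] at h1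
      rw [Subtype.ext h1.1]
    · simp [r, hx, List.filterMap_append, idP] at h1
  · exact absurd hx (by simp [pr'])

theorem finW : Finite X.W := by
  have := X.G.fin
  have := X.S.fin
  have h1 : Finite X.I := (List.finite_length_eq X.G.V X.L).to_subtype
  have h2 : Finite {l : List X.G.V // l.length < X.L} := (List.finite_length_lt X.G.V X.L).to_subtype
  have h3 : Finite X.J := Finite.of_injective
    (fun q : X.J => (q.1.1, (⟨q.1.2.1, by rw [q.2.2]; exact X.hlt _⟩ :
      {l : List X.G.V // l.length < X.L}), q.1.2.2)) (by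
      rintro ⟨⟨a, b, c⟩, h⟩ ⟨⟨a', b', c'⟩, h'⟩ e
      simp only [Prod.mk.injEq, Subtype.mk.injEq] at e
      simp [e.1, e.2.1, e.2.2])
  infer_instance

theorem neW : Nonempty X.W := by
  obtain ⟨g⟩ := X.G.ne
  obtain ⟨s⟩ := X.S.ne
  exact ⟨.inl (⟨List.replicate X.L g, by simp⟩, s)⟩

end Dat

end Pool.Agent.H891Z
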