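import Mathlib

set_option autoImplicit false

namespace Pool.Agent.H891Z

/-- A finite digraph drawn inside a product of two tree orders. -/
structure Sys where
  V : Type
  A : Type
  fin : Finite V
  ne : Nonempty V
  arc : V → V → Prop
  le : V → V → Prop
  p : V → List A
  r : V → List A
  le_iff : ∀ x y, le x y ↔ p y <+: p x ∧ r y <+: r x
  arc_le : ∀ x y, arc x y → le x y
  arc_ne : ∀ x y, arc x y → x ≠ y
  anti : ∀ x y, le x y → le y x → x = y
  cov : ∀ x y z, arc x y → le x z → le z y → z = x ∨ z = y
  sep : ∀ x y x' y', arc x y → arc x' y' → le x y' → le x' y →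
    x = x' ∨ x = y' ∨ y = x' ∨ y = y'
  gen : ∀ x y, le x y → x = y ∨ ∃ z, arc x z ∧ le z y
  dia : ∀ x a b y, arc x a → arc x b → arc a y → arc b y → a = b

theorem Sys.le_refl (S : Sys) (x : S.V) : S.le x x :=
  (S.le_iff x x).2 ⟨List.prefix_rfl, List.prefix_rfl⟩

theorem Sys.le_trans (S : Sys) {x y z : S.V} (h1 : S.le x y) (h2 : S.le y z) : S.le x z := by
  rw [S.le_iff] at *
  exact ⟨h2.1.trans h1.1, h2.2.trans h1.2⟩

/-- The one-point system. -/
def Sys.point : Sys where
  V := Unit
  A := Unit
  fin := inferInstance
  ne := inferInstance
  arc := fun _ _ => False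
  le := fun _ _ => True
  p := fun _ => []
  r := fun _ => []
  le_iff := by simp
  arc_le := by simp
  arc_ne := by simp
  anti := by simp
  cov := by simp
  sep := by simp
  gen := by simp
  dia := by simp

/-- The alphabet of the new system. -/
inductive Al (α β γ : Type) where
  | old (a : α)
  | gr (b : β)
  | st (w : γ)
  | idn (l : List γ)

namespace Al
variable {α β γ : Type}

def oldP : Al α β γ → Option α
  | old a => some a
  | _ => none
def grP : Al α β γ → Option β
  | gr a => some a
  | _ => none
def stP : Al α β γ → Option γ
  | st a => some a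
  | _ => none
def idP : Al α β γ → Option (List γ)
  | idn a => some a
  | _ => none

def code (q : γ → List β) (l : List γ) : List (Al α β γ) :=
  l.flatMap fun w => (q w).map gr ++ [st w]

theorem code_append (q : γ → List β) (l l' : List γ) :
    (code q (l ++ l') : List (Al α β γ)) = code q l ++ code q l' := by
  simp [code]

@[simp] theorem old_old (l : List α) : (l.map (old : α → Al α β γ)).filterMap oldP = l := by
  induction l <;> simp_all [oldP]
@[simp] theorem old_gr (l : List β) : (l.map (gr : β → Al α β γ)).filterMap oldP = [] := by
  induction l <;> simp_all [oldP]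
@[simp] theorem gr_gr (l : List β) : (l.map (gr : β → Al α β γ)).filterMap grP = l := by
  induction l <;> simp_all [grP]
@[simp] theorem st_old (l : List α) : (l.map (old : α → Al α β γ)).filterMap stP = [] := by
  induction l <;> simp_all [stP]
@[simp] theorem st_gr (l : List β) : (l.map (gr : β → Al α β γ)).filterMap stP = [] := by
  induction l <;> simp_all [stP]
@[simp] theorem id_old (l : List α) : (l.map (old : α → Al α β γ)).filterMap idP = [] := by
  induction l <;> simp_all [idP]
@[simp] theorem id_gr (l : List β) : (l.map (gr : β → Al α β γ)).filterMap idP = [] := by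
  induction l <;> simp_all [idP]
@[simp] theorem st_code (q : γ → List β) (l : List γ) :
    (code q l : List (Al α β γ)).filterMap stP = l := by
  induction l with
  | nil => simp [code]
  | cons w l ih =>
    have : (code q (w :: l) : List (Al α β γ)) = (q w).map gr ++ [st w] ++ code q l := by
      simp [code]
    rw [this, List.filterMap_append, List.filterMap_append, ih, st_gr]
    simp [stP]

theorem gr_prefix (s s' : List β) (w : γ) (rest : List (Al α β γ))
    (h : s.map gr <+: s'.map gr ++ st w :: rest) : s <+: s' := by
  induction s generalizing s' with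
  | nil => exact List.nil_prefix
  | cons a s ih =>
    cases s' with
    | nil => simp [List.cons_prefix_cons] at h
    | cons b s' =>
      simp only [List.map_cons, List.cons_append, List.cons_prefix_cons, gr.injEq] at h
      exact List.cons_prefix_cons.2 ⟨h.1, ih _ h.2⟩

end Al

theorem concat_prefix_unique {γ : Type} {j j' i : List γ} {w w' : γ} (h : j ++ [w] <+: i)
    (h' : j' ++ [w'] <+: i) (hl : j.length = j'.length) : j = j' ∧ w = w' := by
  have := List.prefix_of_prefix_length_le h h' (by simp [hl])
  have e := this.eq_of_length (by simp [hl])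
  exact ⟨List.append_inj_left' e rfl, by simpa using List.append_inj_right' e rfl⟩

theorem exists_concat_prefix {γ : Type} {j i : List γ} (h : j <+: i) (hl : j.length < i.length) :
    ∃ w, j ++ [w] <+: i := by
  obtain ⟨t, rfl⟩ := h
  cases t with
  | nil => simp at hl
  | cons w t => exact ⟨w, t, by simp⟩

end Pool.Agent.H891Z
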